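import Mathlib

/-!
# Boolean-valued semantics of the statements Q1 and Q2

`B` is a complete Boolean algebra. In the Boolean-valued model `V^B`
* a subset of `ℕ` is given by `x : ℕ → B`, `x n` being the truth value of `n ∈ x`; a sequence of subsets of `ℕ` is given
  by a function `ℕ → ℕ → B`;
* a set of subsets of `ℕ` is given by an extensional function `(ℕ → B) → B`;
* a function from the subsets of `ℕ` to the subsets of `ℕ` is given by an extensional map of `ℕ → B` to itself.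

Every definition below is the usual one, with the connectives and the quantifiers interpreted by the operations of `B`
(`⊓`, `⊔`, `ᶜ`, `⇨`, `⇔`, `⨅`, `⨆`); its value is the truth value in `V^B`. For `B = Prop` it is the usual statement.
-/

set_option autoImplicit false

open scoped symmDiff

namespace TTF.Boo

universe u

variable {B : Type u} [CompleteBooleanAlgebra B]

/-- the truth value of `x = y` -/
def eqv (x y : ℕ → B) : B := ⨅ n, (x n ⇔ y n)

/-- the truth value of `x ⊆ y` -/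
def sbs (x y : ℕ → B) : B := ⨅ n, (x n ⇨ y n)

/-- the singleton `{n}` -/
def sng (B : Type u) [CompleteBooleanAlgebra B] (n : ℕ) : ℕ → B := fun m => ⨆ _ : m = n, ⊤

/-- sets of subsets of `ℕ` -/
structure PP (B : Type u) [CompleteBooleanAlgebra B] where
  /-- the truth value of `x ∈ U` -/
  mem : (ℕ → B) → B
  ext : ∀ x y, eqv x y ⊓ mem x ≤ mem y

/-- functions from the subsets of `ℕ` to the subsets of `ℕ` -/
structure FF (B : Type u) [CompleteBooleanAlgebra B] where
  /-- the value at `x` -/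
  ap : (ℕ → B) → ℕ → B
  ext : ∀ x y, eqv x y ≤ eqv (ap x) (ap y)

/-- `U` is a nonprincipal ultrafilter on `ℕ`. -/
def ult (U : PP B) : B :=
  (⨅ x, ⨅ y, (U.mem x ⊓ U.mem y ⇨ U.mem fun n => x n ⊓ y n)) ⊓
  (⨅ x, ⨅ y, (sbs x y ⊓ U.mem x ⇨ U.mem y)) ⊓
  (⨅ x, (U.mem x ⊔ U.mem fun n => (x n)ᶜ)) ⊓
  (U.mem fun _ => ⊥)ᶜ ⊓
  ⨅ n, (U.mem (sng B n))ᶜ

/-- `U` is Tukey-top: there are `A x ∈ U`, for all subsets `x` of `ℕ`, such that for every sequence `s 0, s 1, ...` of
pairwise different subsets of `ℕ` the intersection of the `A (s i)` does not belong to `U`. -/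
def top (U : PP B) : B :=
  ⨆ A : FF B, (⨅ x, U.mem (A.ap x)) ⊓
    ⨅ s : ℕ → ℕ → B, ((⨅ i, ⨅ j, ⨅ _ : i ≠ j, (eqv (s i) (s j))ᶜ) ⇨ (U.mem fun n => ⨅ i, A.ap (s i) n)ᶜ)

/-- the section of `x` at `n`: `{m | ⟨n, m⟩ ∈ x}` -/
def sec (x : ℕ → B) (n : ℕ) : ℕ → B := fun m => x (Nat.pair n m)

theorem eqv_sec (x y : ℕ → B) (n : ℕ) : eqv x y ≤ eqv (sec x n) (sec y n) :=
  le_iInf fun m => iInf_le (fun k => x k ⇔ y k) (Nat.pair n m)

theorem eqv_comm (x y : ℕ → B) : eqv x y = eqv y x := by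
  unfold eqv
  simp_rw [bihimp_comm]

theorem PP.le_bihimp (U : PP B) (x y : ℕ → B) : eqv x y ≤ U.mem x ⇔ U.mem y := by
  rw [bihimp, le_inf_iff, le_himp_iff, le_himp_iff]
  refine ⟨?_, U.ext x y⟩
  rw [eqv_comm]
  exact U.ext y x

/-- the Fubini sum of the `V n` along `U` (transported from `ℕ × ℕ` to `ℕ` by the pairing function): `x` belongs to it iff
`{n | {m | ⟨n, m⟩ ∈ x} ∈ V n} ∈ U`. -/
def fsum (U : PP B) (V : ℕ → PP B) : PP B where
  mem x := U.mem fun n => (V n).mem (sec x n)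
  ext x y := by
    refine le_trans (inf_le_inf_right _ ?_) (U.ext _ _)
    exact le_iInf fun n => (eqv_sec x y n).trans ((V n).le_bihimp _ _)

/-- the truth value of Q1: Fubini sums of non-Tukey-top ultrafilters are non-Tukey-top. -/
def Q1 (B : Type u) [CompleteBooleanAlgebra B] : B :=
  ⨅ U : PP B, ⨅ V : ℕ → PP B,
    (ult U ⊓ (⨅ n, ult (V n)) ⊓ (top U)ᶜ ⊓ (⨅ n, (top (V n))ᶜ) ⇨ (top (fsum U V))ᶜ)

/-- the truth value of Q2: Fubini products of non-Tukey-top ultrafilters are non-Tukey-top. -/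
def Q2 (B : Type u) [CompleteBooleanAlgebra B] : B :=
  ⨅ U : PP B, ⨅ V : PP B,
    (ult U ⊓ ult V ⊓ (top U)ᶜ ⊓ (top V)ᶜ ⇨ (top (fsum U fun _ => V))ᶜ)

end TTF.Boo
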