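import Pool.Agent.TTF.Frc

/-! TTF / Nnr: σ-closed forcing adds no reals.

PROOF. Descending sequence `p 0 = p`, `p (n+1) ≤ p n` with `a.mem n (p (n+1))` or `fnot (a.mem n) (p (n+1))` (if no
`r ≤ p n` has `a.mem n r` then `fnot (a.mem n) (p n)`, else take such `r`); `q` a lower bound, `x` the set of `n` of the
first kind (`mono`; `fnot` is inherited by stronger conditions). -/

set_option autoImplicit false

open Set

namespace TTF

universe u

private theorem nnr_step {P : Type u} [Preorder P] (a : SetName P ℕ) (n : ℕ) (p : P) :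
    ∃ r ≤ p, a.mem n r ∨ fnot (a.mem n) r := by
  by_cases h : ∃ r ≤ p, a.mem n r
  · obtain ⟨r, hr, h1⟩ := h
    exact ⟨r, hr, Or.inl h1⟩
  · refine ⟨p, le_rfl, Or.inr fun q hq hm => h ⟨q, hq, hm⟩⟩

theorem noNewReals {P : Type u} [Preorder P] (h : SigmaClosed P) : NoNewReals P := by
  intro a p
  choose f hf1 hf2 using nnr_step a
  obtain ⟨s, hs0, hs⟩ : ∃ s : ℕ → P, s 0 = p ∧ ∀ n, s (n + 1) = f n (s n) :=
    ⟨fun n => Nat.rec p (fun n q => f n q) n, rfl, fun n => rfl⟩
  obtain ⟨q, hq⟩ := h s fun n => by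
    rw [hs]
    exact hf1 n (s n)
  refine ⟨q, hs0 ▸ hq 0, {n | a.mem n q}, fun n => ⟨fun hn => hn, fun hn => ?_⟩⟩
  have h1 := hf2 n (s n)
  rw [← hs] at h1
  rcases h1 with h1 | h1
  · exact absurd (a.mono n _ _ (hq (n + 1)) h1) hn
  · exact fun r hr => h1 r (hr.trans (hq (n + 1)))

end TTF
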