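import Pool.Agent.TTF.RO
import Pool.Agent.TTF.BooD
import Pool.Agent.TTF.Nnr

/-!
# TTF / BooA: from names to the Boolean-valued model over the regular open sets of conditions

`Dec x X p`: `p` decides `x` to be the ground model set `X`. `chk X`: the ground model set `X`. `up U`: the Boolean-valued
set of reals of the name `U`.
-/

set_option autoImplicit false

open Set
open scoped symmDiff

namespace TTF

universe u

variable {P : Type u} [Preorder P]

/-- the ground model set `X` -/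
def chk (P : Type u) [Preorder P] (X : Set ℕ) : ℕ → RO P := fun n => ⨆ _ : n ∈ X, ⊤

theorem mem_chk {X : Set ℕ} {n : ℕ} {p : P} : p ∈ chk P X n ↔ n ∈ X := by
  unfold chk
  rw [RO.mem_iSup]
  constructor
  · intro h
    obtain ⟨_, _, h1, _⟩ := h p le_rfl
    exact h1
  · intro h q _
    exact ⟨q, le_rfl, h, RO.mem_top⟩

/-- `p` decides `x` to be `X` -/
def Dec (x : ℕ → RO P) (X : Set ℕ) (p : P) : Prop := ∀ n, (n ∈ X → p ∈ x n) ∧ (n ∉ X → ∀ q ≤ p, q ∉ x n)

namespace Dec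

variable {x y : ℕ → RO P} {X Y : Set ℕ} {p q : P}

theorem mono (h : Dec x X p) (hq : q ≤ p) : Dec x X q := fun n =>
  ⟨fun hn => RO.mono ((h n).1 hn) hq, fun hn r hr => (h n).2 hn r (hr.trans hq)⟩

theorem unique (h : Dec x X p) (h' : Dec x Y p) : X = Y := by
  ext n
  constructor
  · intro hn
    by_contra hn'
    exact (h' n).2 hn' p le_rfl ((h n).1 hn)
  · intro hn
    by_contra hn'
    exact (h n).2 hn' p le_rfl ((h' n).1 hn)

theorem of_dense (h : ∀ q ≤ p, ∃ r ≤ q, Dec x X r) : Dec x X p := by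
  intro n
  constructor
  · intro hn
    refine RO.dense fun q hq => ?_
    obtain ⟨r, hr, h1⟩ := h q hq
    exact ⟨r, hr, (h1 n).1 hn⟩
  · intro hn q hq hqx
    obtain ⟨r, hr, h1⟩ := h q hq
    exact (h1 n).2 hn r le_rfl (RO.mono hqx hr)

theorem of_chk (X : Set ℕ) (p : P) : Dec (chk P X) X p := fun _ =>
  ⟨fun hn => mem_chk.2 hn, fun hn _ _ h => hn (mem_chk.1 h)⟩

/-- membership after the decision -/
theorem mem_iff (h : Dec x X p) {n : ℕ} (hq : q ≤ p) : q ∈ x n ↔ n ∈ X := by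
  constructor
  · intro h1
    by_contra hn
    exact (h n).2 hn q hq h1
  · intro hn
    exact RO.mono ((h n).1 hn) hq

theorem of_mem_iff (h : ∀ n, ∀ q ≤ p, q ∈ x n ↔ n ∈ X) : Dec x X p := fun n =>
  ⟨fun hn => (h n p le_rfl).2 hn, fun hn q hq h1 => hn ((h n q hq).1 h1)⟩

end Dec

theorem mem_bihimp {a b : RO P} {p : P} : p ∈ a ⇔ b ↔ ∀ q ≤ p, q ∈ a ↔ q ∈ b := by
  rw [bihimp, RO.mem_inf, RO.mem_himp, RO.mem_himp]
  constructor
  · rintro ⟨h1, h2⟩ q hq
    exact ⟨h2 q hq, h1 q hq⟩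
  · intro h
    exact ⟨fun q hq => (h q hq).2, fun q hq => (h q hq).1⟩

theorem mem_eqv {x y : ℕ → RO P} {p : P} : p ∈ Boo.eqv x y ↔ ∀ n, ∀ q ≤ p, q ∈ x n ↔ q ∈ y n := by
  unfold Boo.eqv
  rw [RO.mem_iInf]
  exact forall_congr' fun n => mem_bihimp

theorem mem_sbs {x y : ℕ → RO P} {p : P} : p ∈ Boo.sbs x y ↔ ∀ n, ∀ q ≤ p, q ∈ x n → q ∈ y n := by
  unfold Boo.sbs
  rw [RO.mem_iInf]
  exact forall_congr' fun n => RO.mem_himp

theorem Dec.eqv {x y : ℕ → RO P} {X : Set ℕ} {p : P} (h : Dec x X p) (he : p ∈ Boo.eqv x y) : Dec y X p :=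
  Dec.of_mem_iff fun n q hq => by
    rw [← mem_eqv.1 he n q hq]
    exact h.mem_iff hq

theorem Dec.eqv' {x y : ℕ → RO P} {X : Set ℕ} {p : P} (h : Dec x X p) (h' : Dec y X p) :
    p ∈ Boo.eqv x y :=
  mem_eqv.2 fun n q hq => by rw [h.mem_iff hq, h'.mem_iff hq]

/-- two decided reals are equal or forced to be different -/
theorem Dec.eqv_compl {x y : ℕ → RO P} {X Y : Set ℕ} {p : P} (h : Dec x X p) (h' : Dec y Y p) :
    p ∈ (Boo.eqv x y)ᶜ ↔ X ≠ Y := by
  rw [RO.mem_compl]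
  constructor
  · rintro h1 rfl
    exact h1 p le_rfl (h.eqv' h')
  · intro h1 q hq h2
    exact h1 (((h.mono hq).eqv h2).unique (h'.mono hq))

theorem exists_dec (h : SigmaClosed P) (x : ℕ → RO P) (p : P) : ∃ q ≤ p, ∃ X : Set ℕ, Dec x X q := by
  let a : SetName P ℕ :=
    { mem := fun n p => p ∈ x n
      mono := fun n p q hq hp => RO.mono hp hq
      dense := fun n p hp => RO.dense hp }
  obtain ⟨q, hq, X, hX⟩ := noNewReals h a p
  exact ⟨q, hq, X, hX⟩

theorem exists_dec_seq (h : SigmaClosed P) (s : ℕ → ℕ → RO P) (p : P) :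
    ∃ q ≤ p, ∃ S : ℕ → Set ℕ, ∀ i, Dec (s i) (S i) q := by
  obtain ⟨q, hq, X, hX⟩ := exists_dec h (fun k => s (Nat.unpair k).1 (Nat.unpair k).2) p
  refine ⟨q, hq, fun i => {n | Nat.pair i n ∈ X}, fun i n => ?_⟩
  have h1 := hX (Nat.pair i n)
  simp only [Nat.unpair_pair] at h1
  exact h1

/-- the Boolean-valued set of reals of a name -/
def up (U : SetName P (Set ℕ)) : Boo.PP (RO P) where
  mem x := RO.cl (fun p => ∃ X, Dec x X p ∧ U.mem X p)
    fun _ _ hq ⟨X, h1, h2⟩ => ⟨X, h1.mono hq, U.mono _ _ _ hq h2⟩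
  ext x y := by
    intro p hp
    rw [RO.mem_inf] at hp
    intro q hq
    obtain ⟨r, hr, X, h1, h2⟩ := hp.2 q hq
    exact ⟨r, hr, X, h1.eqv (RO.mono hp.1 (hr.trans hq)), h2⟩

theorem mem_up {U : SetName P (Set ℕ)} {x : ℕ → RO P} {X : Set ℕ} {p : P} (h : Dec x X p) :
    p ∈ (up U).mem x ↔ U.mem X p := by
  constructor
  · intro hp
    refine U.dense X p fun q hq => ?_
    obtain ⟨r, hr, X', h1, h2⟩ := hp q hq
    rw [h1.unique (h.mono (hr.trans hq))] at h2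
    exact ⟨r, hr, h2⟩
  · intro hp q hq
    exact ⟨q, le_rfl, X, h.mono hq, U.mono _ _ _ hq hp⟩

/-- membership in `up U` can be checked after a decision -/
theorem mem_up_of_dense {U : SetName P (Set ℕ)} {x : ℕ → RO P} {p : P}
    (h : ∀ q ≤ p, ∃ r ≤ q, ∃ X, Dec x X r ∧ U.mem X r) : p ∈ (up U).mem x := h

end TTF
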