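import Pool.Agent.TTF.BooM

/-! TTF / BooF: the final theorem in the Boolean-valued form; the algebra adds no new reals. -/

set_option autoImplicit false

open Set

namespace TTF

/-- the algebra of a σ-closed forcing adds no new reals -/
theorem no_new_reals_RO {P : Type} [Preorder P] (hs : SigmaClosed P) (x : ℕ → RO P) :
    ⨆ X : Set ℕ, Boo.eqv x (fun n => ⨆ _ : n ∈ X, ⊤) = ⊤ := by
  refine RO.eq_top fun p => ?_
  rw [RO.mem_iSup]
  intro q _
  obtain ⟨r, hr, X, hX⟩ := exists_dec hs x q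
  exact ⟨r, hr, X, hX.eqv' (Dec.of_chk X r)⟩

/-- There is a nontrivial complete Boolean algebra, adding no new reals, in which Q1 and Q2 have the truth value `⊥`. -/
theorem boo_final' : ∃ (B : Type) (_ : CompleteBooleanAlgebra B), Nontrivial B ∧
    (∀ x : ℕ → B, ⨆ X : Set ℕ, Boo.eqv x (fun n => ⨆ _ : n ∈ X, ⊤) = ⊤) ∧
    Boo.Q1 B = ⊥ ∧ Boo.Q2 B = ⊥ := by
  obtain ⟨P, _, hne, hs, -, -, U, V, h⟩ := final
  have hb := boo_gen hs (fun p => (h p).1) (fun p => (h p).2.1) (fun p => (h p).2.2.1)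
    (fun p => (h p).2.2.2.1) (fun p => (h p).2.2.2.2)
  exact ⟨RO P, inferInstance, inferInstance, no_new_reals_RO hs, hb.1, hb.2⟩

end TTF
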