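import Pool.Agent.TTF.BooA

/-! TTF / BooP: the Boolean value of the Fubini sum is Tukey-top.

`dcode Z = {(n, m) | ⟨n, m⟩ ∈ Z}`, `ecode E = {k | unpair k ∈ E}`.

PROOFS. `mem_fsum`: let `x` be decided to be `Z` at `p`. By definition the Boolean value is that of
`(fun n => (up (V n)).mem (Boo.sec x n)) ∈ up U`; `Boo.sec x n` is decided to be `{m | ⟨n, m⟩ ∈ Z}`.
`→`: densely below `p` there is `N` with `Dec (fun n => (up (V n)).mem (sec x n)) N r`, `U.mem N r`; for `n ∈ N`: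
`r ∈ (up (V n)).mem (sec x n)`, so `(V n).mem {m | ..} r` (`mem_up`); this is `(fsum U V).mem (dcode Z) r`; `dense`.
`←`: `(fsum U V).mem (dcode Z) p`: densely below `p` there is `N` with `U.mem N r` and `(V n).mem {m | ..} r` for `n ∈ N`.
Decide the real `fun n => (up (V n)).mem (sec x n)` to be `N'` at `r' ≤ r` (`exists_dec`); `N ⊆ N'`, so `U.mem N' r'` (superset
clause of `hU r'`), then `mem_up`.

`mem_top_fsum`: let `q ≤ p`; `hT` gives `r ≤ q` and `R` with `IsFun (fsum U V) R r` and, for all `I`,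
`fimp (Infin I) (fnot (InterMem _ R I)) r`. Let `A.ap x k = RO.cl (fun p => ∃ X Y, Dec x X p ∧ R.mem (X, Y) p ∧ k ∈ ecode Y)`.
Extensional: by `Dec.eqv`. Key fact: for `t ≤ r`, `Dec x X t` and `R.mem (X, Y) t` imply `Dec (A.ap x) (ecode Y) t` (single
valuedness of `R` at `t`, `Dec.unique`). (1) `r ∈ (..).mem (A.ap x)`: densely decide `x` to be `X`, take `Y` with `R.mem (X, Y) t`,
`(fsum U V).mem Y t`; `mem_fsum` with `dcode (ecode Y) = Y`. (2) Let `s` be a sequence, `t ≤ r` in the hypothesis (pairwise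
different), and suppose `t1 ≤ t` is in `(..).mem fun n => ⨅ i, A.ap (s i) n`. Decide (`exists_dec_seq`, `exists_dec`) at `t2 ≤ t1`:
`s i` to be `S i` (injective, `Dec.eqv_compl`), and `fun n => ⨅ i, A.ap (s i) n` to be `Z`. So `(fsum U V).mem (dcode Z) t2`
(`mem_fsum`). Let `I` be the constant name of `{S i | i}`: `Infin I t2`. `InterMem _ R I t2` holds with `E = dcode Z` below any
condition: if `t3` has `S i ∈ I`, `R.mem (S i, Y) t3`, then `A.ap (s i)` is decided to be `ecode Y` at `t3`, so `Z ⊆ ecode Y`,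
`dcode Z ⊆ Y`. Contradiction. -/

set_option autoImplicit false

open Set
open scoped symmDiff

namespace TTF

universe u

variable {P : Type u} [Preorder P]

/-- decoding a set of numbers as a set of pairs -/
def dcode (Z : Set ℕ) : Set (ℕ × ℕ) := {x | Nat.pair x.1 x.2 ∈ Z}

/-- coding a set of pairs as a set of numbers -/
def ecode (E : Set (ℕ × ℕ)) : Set ℕ := {k | Nat.unpair k ∈ E}

theorem dcode_ecode (E : Set (ℕ × ℕ)) : dcode (ecode E) = E := by
  ext x
  simp [dcode, ecode]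

theorem mem_fsum (h : SigmaClosed P) {U : SetName P (Set ℕ)} {V : ℕ → SetName P (Set ℕ)}
    (hU : ∀ p, Ult U p) {x : ℕ → RO P} {Z : Set ℕ} {p : P} (hx : Dec x Z p) :
    p ∈ (Boo.fsum (up U) fun n => up (V n)).mem x ↔ (fsum U V).mem (dcode Z) p := by
  have hsec : ∀ n, ∀ q ≤ p, Dec (Boo.sec x n) {m | Nat.pair n m ∈ Z} q := fun n q hq m =>
    (hx.mono hq) (Nat.pair n m)
  constructor
  · intro hp
    have hp' : p ∈ (up U).mem (fun n => (up (V n)).mem (Boo.sec x n)) := hp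
    refine (fsum U V).dense _ _ fun q hq => ?_
    obtain ⟨r, hr, N, h1, h2⟩ := hp' q hq
    refine ⟨r, hr, ?_⟩
    intro q' hq'
    refine ⟨q', le_rfl, N, U.mono _ _ _ hq' h2, fun n => ?_⟩
    have h3 : r ∈ (up (V n)).mem (Boo.sec x n) := (h1 n).1 n.2
    have h4 := (mem_up (hsec n r (hr.trans hq))).1 h3
    exact (V n).mono _ _ _ hq' h4
  · intro hp
    show p ∈ (up U).mem (fun n => (up (V n)).mem (Boo.sec x n))
    refine mem_up_of_dense fun q hq => ?_
    obtain ⟨r, hr, N, h1, h2⟩ := hp q hq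
    obtain ⟨r', hr', N', hN'⟩ := exists_dec h (fun n => (up (V n)).mem (Boo.sec x n)) r
    refine ⟨r', hr'.trans hr, N', hN', ?_⟩
    have hNN : N ⊆ N' := fun n hn => by
      have h3 : r ∈ (up (V n)).mem (Boo.sec x n) :=
        (mem_up (hsec n r (hr.trans hq))).2 (h2 ⟨n, hn⟩)
      exact (hN'.mem_iff le_rfl).1 (RO.mono h3 hr')
    exact (hU r').1.2 N ⟨N', hNN⟩ r' le_rfl (U.mono _ _ _ hr' h1)

theorem mem_top_fsum (h : SigmaClosed P) {U : SetName P (Set ℕ)} {V : ℕ → SetName P (Set ℕ)}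
    (hU : ∀ p, Ult U p) {p : P} (hT : Top (fsum U V) p) :
    p ∈ Boo.top (Boo.fsum (up U) fun n => up (V n)) := by
  classical
  unfold Boo.top
  rw [RO.mem_iSup]
  intro q hq
  obtain ⟨r, hr, R, ⟨hR1, hR2, hR3⟩, hI⟩ := hT q hq
  let A : Boo.FF (RO P) :=
    { ap := fun x k => RO.cl (fun p => ∃ X Y, Dec x X p ∧ R.mem (X, Y) p ∧ k ∈ ecode Y)
        (fun _ _ hq ⟨X, Y, h1, h2, h3⟩ => ⟨X, Y, h1.mono hq, R.mono _ _ _ hq h2, h3⟩)
      ext := fun x y p hp => by
        refine mem_eqv.2 fun k q hq => ⟨fun h1 t ht => ?_, fun h1 t ht => ?_⟩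
        · obtain ⟨t', ht', X, Y, h2, h3, h4⟩ := h1 t ht
          exact ⟨t', ht', X, Y, h2.eqv (RO.mono hp (ht'.trans (ht.trans hq))), h3, h4⟩
        · obtain ⟨t', ht', X, Y, h2, h3, h4⟩ := h1 t ht
          rw [Boo.eqv_comm] at hp
          exact ⟨t', ht', X, Y, h2.eqv (RO.mono hp (ht'.trans (ht.trans hq))), h3, h4⟩ }
  have key : ∀ t ≤ r, ∀ (x : ℕ → RO P) (X : Set ℕ) (Y : Set (ℕ × ℕ)), Dec x X t → R.mem (X, Y) t →
      Dec (A.ap x) (ecode Y) t := by
    intro t ht x X Y hx hY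
    refine Dec.of_mem_iff fun k q hq => ⟨fun h1 => ?_, fun hk q' hq' => ?_⟩
    · obtain ⟨t', ht', X', Y', h2, h3, h4⟩ := h1 q le_rfl
      have h5 : X' = X := h2.unique (hx.mono (ht'.trans hq))
      subst h5
      have h6 : Y = Y' := by
        by_contra hne
        exact hR2 X' Y ⟨Y', hne⟩ t' (ht'.trans (hq.trans ht))
          ⟨R.mono _ _ _ (ht'.trans hq) hY, h3⟩
      rw [h6]
      exact h4
    · exact ⟨q', le_rfl, X, Y, hx.mono (hq'.trans hq), R.mono _ _ _ (hq'.trans hq) hY, hk⟩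
  refine ⟨r, hr, A, RO.mem_inf.2 ⟨?_, ?_⟩⟩
  · rw [RO.mem_iInf]
    intro x
    refine RO.dense fun t ht => ?_
    obtain ⟨t1, ht1, X, hX⟩ := exists_dec h x t
    obtain ⟨t2, ht2, Y, hY⟩ := hR1 X t1 (ht1.trans ht)
    have ht2r : t2 ≤ r := ht2.trans (ht1.trans ht)
    have h1 := hR3 X Y t2 ht2r hY
    refine ⟨t2, ht2.trans ht1, (mem_fsum h hU (key t2 ht2r x X Y (hX.mono ht2) hY)).2 ?_⟩
    rw [dcode_ecode]
    exact h1
  · rw [RO.mem_iInf]
    intro s
    rw [RO.mem_himp]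
    intro t ht hs
    rw [RO.mem_compl]
    intro t1 ht1 hmem
    obtain ⟨t2, ht2, S, hS⟩ := exists_dec_seq h s t1
    obtain ⟨t3, ht3, Z, hZ⟩ := exists_dec h (fun n => ⨅ i, A.ap (s i) n) t2
    have hSinj : Function.Injective S := by
      intro i j hij
      by_contra hne
      rw [RO.mem_iInf] at hs
      have h1 := RO.mem_iInf.1 (RO.mem_iInf.1 (hs i) j) hne
      exact (Dec.eqv_compl (hS i) (hS j)).1 (RO.mono h1 (ht2.trans ht1)) hij
    have hW : (fsum U V).mem (dcode Z) t3 := (mem_fsum h hU hZ).1 (RO.mono hmem (ht3.trans ht2))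
    let I : SetName P (Set ℕ) :=
      { mem := fun X _ => ∃ i, X = S i
        mono := fun _ _ _ _ h => h
        dense := fun X p h => by
          obtain ⟨_, _, h1⟩ := h p le_rfl
          exact h1 }
    have ht3r : t3 ≤ r := ht3.trans (ht2.trans (ht1.trans ht))
    have hinf : Infin I t3 := by
      intro F q _
      obtain ⟨i, hi⟩ : ∃ i, S i ∉ F := by
        by_contra hcon
        push Not at hcon
        exact (infinite_range_of_injective hSinj) (F.finite_toSet.subset (by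
          rintro _ ⟨i, rfl⟩
          exact hcon i))
      exact ⟨q, le_rfl, ⟨S i, hi⟩, i, rfl⟩
    refine hI I t3 ht3r hinf t3 le_rfl ?_
    intro q' hq'
    refine ⟨q', le_rfl, dcode Z, (fsum U V).mono _ _ _ hq' hW, ?_⟩
    rintro X Y t4 ht4 ⟨⟨i, hi⟩, hm⟩
    subst hi
    have ht43 : t4 ≤ t3 := ht4.trans hq'
    have h5 := key t4 (ht43.trans ht3r) (s i) (S i) Y ((hS i).mono (ht43.trans ht3)) hm
    refine Y.2 ?_
    rintro ⟨n, m⟩ hnm
    have h6 : t4 ∈ ⨅ i, A.ap (s i) (Nat.pair n m) := (hZ.mem_iff ht43).2 hnm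
    have h7 := RO.mem_iInf.1 h6 i
    have h8 : Nat.pair n m ∈ ecode (Y : Set (ℕ × ℕ)) := (h5.mem_iff le_rfl).1 h7
    simpa [ecode] using h8

end TTF
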