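import Pool.Agent.TTF.StdD
import Pool.Agent.TTF.BooD

/-! TTF / BooS: for `B = Prop` the Boolean-valued statements are the usual ones.

PROOFS. `Prop` is a complete Boolean algebra with `⊓ = ∧`, `⊔ = ∨`, `ᶜ = ¬`, `⇨ = →`, `⨅ = ∀`, `⨆ = ∃`
(`inf_Prop_eq`, `sup_Prop_eq`, `compl_Prop_eq`, `himp_iff_imp`, `iInf_Prop_eq`, `iSup_Prop_eq`, `bihimp` = `↔` via
`bihimp_iff_iff`). `eqv x y ↔ x = y` (funext, propext).
`pp 𝒰`: the ultrafilter as a `PP Prop`. `exists_pp`: an `U : PP Prop` with `ult U` is `pp 𝒰` for a nonprincipal ultrafilter `𝒰`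
(build the filter from the clauses of `ult`, `Ultrafilter.ofComplNotMemIff`; structure extensionality of `PP`).
`ult_pp`: clauses of `ult (pp 𝒰)`; the only nontrivial ones are `∅ ∉ 𝒰` and the singletons.
`top_pp`: `TukeyTop 𝒰` iff there are `A i ∈ 𝒰` for `i : Set ℕ` such that no intersection over an infinite set of indices
belongs to `𝒰` (`tukeyTop_of_family`, `family_of_tukeyTop`, `bddAbove_finset` in
`Pool/Agent/Results/MP_0d317a_lc/DiamondFubiniTop.lean`: copy these three lemmas as private lemmas), iff the same for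
injective sequences (an infinite set contains the range of an injective sequence; conversely the range is infinite). A
`FF Prop` is any map (`ext` is trivial because `eqv` is equality).
`fsum_pp`: `fsum (pp U) (pp ∘ V) = pp` of the image of `fubiniSum U V` under `Nat.pairEquiv`; `tukeyTop_map`: Tukey-topness
is invariant under `Ultrafilter.map e` for an equivalence `e` (from the characterisation by families).
-/

set_option autoImplicit false

open Set
open scoped symmDiff

namespace TTF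

open Boo

section std

open TTF.Std Filter

/-- Unbounded families of finite sets are those with infinite union. -/
private lemma bddAbove_finset {ι : Type*} (s : Set (Finset ι)) :
    BddAbove s ↔ (⋃ F ∈ s, (F : Set ι)).Finite := by
  classical
  constructor
  · rintro ⟨B, hB⟩
    refine B.finite_toSet.subset ?_
    intro x hx
    simp only [mem_iUnion, exists_prop] at hx
    obtain ⟨F, hF, hxF⟩ := hx
    exact hB hF hxF
  · intro h
    refine ⟨h.toFinset, fun F hF x hx => ?_⟩
    rw [Set.Finite.mem_toFinset]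
    simp only [mem_iUnion, exists_prop]
    exact ⟨F, hF, hx⟩

/-- A family of sets witnessing Tukey-topness. -/
private lemma tukeyTop_of_family {X : Type} (U : Ultrafilter X) (A : Set ℕ → Set X)
    (hA : ∀ i, A i ∈ U) (hI : ∀ I : Set (Set ℕ), I.Infinite → (⋂ i ∈ I, A i) ∉ U) :
    TukeyTop U := by
  classical
  refine ⟨fun F => OrderDual.toDual ⟨⋂ i ∈ F, A i, (Filter.biInter_finset_mem F).2
    (fun i _ => hA i)⟩, fun s hs hb => ?_⟩
  rw [bddAbove_finset] at hs
  obtain ⟨B, hB⟩ := hb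
  refine hI _ hs (mem_of_superset (OrderDual.ofDual B).2 ?_)
  intro x hx
  simp only [mem_iInter, mem_iUnion, exists_prop]
  rintro i ⟨F, hF, hiF⟩
  have h1 : (OrderDual.ofDual B).1 ⊆ ⋂ i ∈ F, A i := hB (mem_image_of_mem _ hF)
  have h2 := h1 hx
  simp only [mem_iInter] at h2
  exact h2 i hiF

/-- A Tukey-top ultrafilter has a witnessing family. -/
private lemma family_of_tukeyTop {X : Type} (U : Ultrafilter X) (h : TukeyTop U) :
    ∃ A : Set ℕ → Set X, (∀ i, A i ∈ U) ∧
      ∀ I : Set (Set ℕ), I.Infinite → (⋂ i ∈ I, A i) ∉ U := by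
  classical
  obtain ⟨f, hf⟩ := h
  refine ⟨fun i => (OrderDual.ofDual (f {i})).1, fun i => (OrderDual.ofDual (f {i})).2,
    fun I hI hmem => ?_⟩
  refine hf ((fun i => ({i} : Finset (Set ℕ))) '' I) ?_ ?_
  · rw [bddAbove_finset]
    intro hfin
    apply hI
    refine hfin.subset ?_
    intro i hi
    simp only [mem_iUnion, exists_prop]
    exact ⟨{i}, mem_image_of_mem _ hi, by simp⟩
  · refine ⟨OrderDual.toDual ⟨_, hmem⟩, ?_⟩
    rintro _ ⟨_, ⟨i, hi, rfl⟩, rfl⟩
    show (⋂ i ∈ I, (OrderDual.ofDual (f {i})).1) ⊆ (OrderDual.ofDual (f {i})).1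
    exact biInter_subset_of_mem hi

private lemma tukeyTop_map_of {X Y : Type} (e : X ≃ Y) (U : Ultrafilter X) (h : TukeyTop U) :
    TukeyTop (U.map e) := by
  obtain ⟨A, hA, hI⟩ := family_of_tukeyTop U h
  have key : ∀ S : Set X, e.symm ⁻¹' S ∈ U.map e ↔ S ∈ U := by
    intro S
    rw [Ultrafilter.mem_map, ← preimage_comp, Equiv.symm_comp_self, preimage_id]
  refine tukeyTop_of_family _ (fun i => e.symm ⁻¹' A i) (fun i => (key _).2 (hA i))
    (fun I hI' hmem => hI I hI' ?_)
  rw [← key, preimage_iInter₂]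
  exact hmem

private lemma tukeyTop_map {X Y : Type} (e : X ≃ Y) (U : Ultrafilter X) :
    TukeyTop (U.map e) ↔ TukeyTop U := by
  refine ⟨fun h => ?_, tukeyTop_map_of e U⟩
  have h1 := tukeyTop_map_of e.symm _ h
  rwa [Ultrafilter.map_map, Equiv.symm_comp_self, Ultrafilter.map_id] at h1

end std

private lemma eqv_iff (x y : ℕ → Prop) : eqv x y ↔ x = y := by
  unfold eqv
  rw [iInf_Prop_eq]
  constructor
  · intro h
    funext n
    exact propext (bihimp_iff_iff.1 (h n))
  · rintro rfl n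
    exact bihimp_iff_iff.2 Iff.rfl

private lemma sbs_iff (x y : ℕ → Prop) : sbs x y ↔ ∀ n, x n → y n := by
  unfold sbs
  rw [iInf_Prop_eq]
  exact Iff.rfl

private lemma sng_eq (n : ℕ) : sng Prop n = fun m => m = n := by
  funext m
  unfold sng
  rw [iSup_Prop_eq]
  simp

private lemma ult_iff (U : PP Prop) : ult U ↔
    (∀ x y, U.mem x → U.mem y → U.mem fun n => x n ∧ y n) ∧
    (∀ x y : ℕ → Prop, (∀ n, x n → y n) → U.mem x → U.mem y) ∧
    (∀ x, U.mem x ∨ U.mem fun n => ¬ x n) ∧ (¬ U.mem fun _ => False) ∧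
    ∀ n, ¬ U.mem fun m => m = n := by
  unfold ult
  simp only [iInf_Prop_eq, sng_eq]
  constructor
  · rintro ⟨⟨⟨⟨h1, h2⟩, h3⟩, h4⟩, h5⟩
    exact ⟨fun x y hx hy => h1 x y ⟨hx, hy⟩, fun x y hxy hx => h2 x y ⟨(sbs_iff x y).2 hxy, hx⟩,
      h3, h4, h5⟩
  · rintro ⟨h1, h2, h3, h4, h5⟩
    exact ⟨⟨⟨⟨fun x y h => h1 x y h.1 h.2, fun x y h => h2 x y ((sbs_iff x y).1 h.1) h.2⟩,
      h3⟩, h4⟩, h5⟩

private lemma top_iff (U : PP Prop) : top U ↔
    ∃ A : (ℕ → Prop) → ℕ → Prop, (∀ x, U.mem (A x)) ∧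
      ∀ s : ℕ → ℕ → Prop, (∀ i j, i ≠ j → s i ≠ s j) → ¬ U.mem fun n => ∀ i, A (s i) n := by
  unfold top
  simp only [iInf_Prop_eq, iSup_Prop_eq]
  constructor
  · rintro ⟨A, h1, h2⟩
    refine ⟨A.ap, h1, fun s hs => h2 s fun i j hij => ?_⟩
    exact fun h => hs i j hij ((eqv_iff _ _).1 h)
  · rintro ⟨A, h1, h2⟩
    refine ⟨⟨A, fun x y h => ?_⟩, h1, fun s hs => h2 s fun i j hij h => hs i j hij ?_⟩
    · rw [(eqv_iff _ _).1 h]
      exact (eqv_iff _ _).2 rfl
    · exact (eqv_iff _ _).2 h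

/-- an ultrafilter as a `PP Prop`. -/
private def pp (U : Ultrafilter ℕ) : PP Prop where
  mem x := {n | x n} ∈ U
  ext x y h := by
    have h1 := (eqv_iff x y).1 h.1
    rw [← h1]
    exact h.2

private lemma PP_ext {U V : PP Prop} (h : ∀ x, U.mem x ↔ V.mem x) : U = V := by
  cases U with
  | mk m e =>
    cases V with
    | mk m' e' =>
      have : m = m' := funext fun x => propext (h x)
      subst this
      rfl

private lemma ult_pp (U : Ultrafilter ℕ) : ult (pp U) ↔ Std.Nonprincipal U := by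
  rw [ult_iff]
  constructor
  · rintro ⟨-, -, -, -, h⟩ n
    exact h n
  · intro h
    refine ⟨fun x y hx hy => Filter.inter_mem hx hy, fun x y hxy hx => Filter.mem_of_superset hx hxy,
      fun x => U.em _, ?_, h⟩
    exact U.empty_notMem

private lemma exists_pp (U : PP Prop) (h : ult U) :
    ∃ V : Ultrafilter ℕ, Std.Nonprincipal V ∧ U = pp V := by
  obtain ⟨h1, h2, h3, h4, h5⟩ := (ult_iff U).1 h
  let F : Filter ℕ :=
    { sets := {s | U.mem fun n => n ∈ s}
      univ_sets := by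
        rcases h3 fun n => n ∈ (univ : Set ℕ) with h | h
        · exact h
        · exact h2 _ _ (fun n _ => mem_univ n) h
      sets_of_superset := fun {x y} hx hxy => h2 _ _ (fun n hn => hxy hn) hx
      inter_sets := fun {x y} hx hy => h1 _ _ hx hy }
  have hF : ∀ s, s ∈ F ↔ U.mem fun n => n ∈ s := fun s => Iff.rfl
  let V : Ultrafilter ℕ := Ultrafilter.ofComplNotMemIff F fun s => by
    rw [hF, hF]
    constructor
    · intro h
      exact (h3 fun n => n ∈ s).resolve_right h
    · intro h h'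
      exact h4 (h2 _ _ (fun n hn => hn.2 hn.1) (h1 _ _ h h'))
  have hV : ∀ s, s ∈ V ↔ U.mem fun n => n ∈ s := fun s => Iff.rfl
  refine ⟨V, fun n => ?_, PP_ext fun x => ?_⟩
  · rw [hV]
    exact h5 n
  · exact (hV {n | x n}).symm

private lemma top_pp (U : Ultrafilter ℕ) : top (pp U) ↔ Std.TukeyTop U := by
  rw [top_iff]
  constructor
  · rintro ⟨A, hA, hs⟩
    refine tukeyTop_of_family U (fun i => {n | A (fun m => m ∈ i) n}) (fun i => hA _)
      (fun I hI hmem => ?_)
    have s := hI.natEmbedding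
    refine hs (fun i m => m ∈ (s i : Set ℕ)) (fun i j hij h => hij ?_) ?_
    · apply s.injective
      apply Subtype.ext
      ext m
      exact iff_of_eq (congrFun h m)
    · refine Filter.mem_of_superset hmem fun n hn i => ?_
      simp only [mem_iInter] at hn
      exact hn (s i) (s i).2
  · intro h
    obtain ⟨A, hA, hI⟩ := family_of_tukeyTop U h
    refine ⟨fun x n => n ∈ A {m | x m}, fun x => hA _, fun s hs hmem => ?_⟩
    have hinj : Function.Injective fun i => ({m | s i m} : Set ℕ) := by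
      intro i j hij
      by_contra hne
      refine hs i j hne ?_
      funext m
      exact propext (Set.ext_iff.1 hij m)
    refine hI (range fun i => ({m | s i m} : Set ℕ)) (infinite_range_of_injective hinj) ?_
    refine Filter.mem_of_superset hmem fun n hn => ?_
    simp only [mem_iInter]
    rintro _ ⟨i, rfl⟩
    exact hn i

private lemma fsum_pp (U : Ultrafilter ℕ) (V : ℕ → Ultrafilter ℕ) :
    fsum (pp U) (fun n => pp (V n)) = pp ((Std.fubiniSum U V).map Nat.pairEquiv) :=
  PP_ext fun _ => Iff.rfl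

private lemma top_fsum (U : Ultrafilter ℕ) (V : ℕ → Ultrafilter ℕ) :
    top (fsum (pp U) (fun n => pp (V n))) ↔ Std.TukeyTop (Std.fubiniSum U V) := by
  rw [fsum_pp, top_pp, tukeyTop_map]

theorem sanity1 : Boo.Q1 Prop ↔ Std.Q1 := by
  unfold Boo.Q1 Std.Q1
  simp only [iInf_Prop_eq]
  constructor
  · intro H U V hU hV hUt hVt
    rw [← top_fsum]
    refine H (pp U) (fun n => pp (V n)) ⟨⟨⟨(ult_pp U).2 hU, fun n => (ult_pp _).2 (hV n)⟩, ?_⟩, ?_⟩
    · exact fun h => hUt ((top_pp U).1 h)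
    · exact fun n h => hVt n ((top_pp _).1 h)
  · rintro H U V ⟨⟨⟨hU, hV⟩, hUt⟩, hVt⟩
    obtain ⟨U', hU', rfl⟩ := exists_pp U hU
    choose V' hV' hVe using fun n => exists_pp (V n) (hV n)
    obtain rfl : V = fun n => pp (V' n) := funext hVe
    intro h
    refine H U' V' hU' hV' (fun h' => hUt ((top_pp U').2 h')) (fun n h' => ?_) ((top_fsum _ _).1 h)
    exact hVt n ((top_pp _).2 h')

theorem sanity2 : Boo.Q2 Prop ↔ Std.Q2 := by
  unfold Boo.Q2 Std.Q2
  simp only [iInf_Prop_eq]
  constructor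
  · intro H U V hU hV hUt hVt
    rw [← top_fsum]
    refine H (pp U) (pp V) ⟨⟨⟨(ult_pp U).2 hU, (ult_pp _).2 hV⟩, ?_⟩, ?_⟩
    · exact fun h => hUt ((top_pp U).1 h)
    · exact fun h => hVt ((top_pp _).1 h)
  · rintro H U V ⟨⟨⟨hU, hV⟩, hUt⟩, hVt⟩
    obtain ⟨U', hU', rfl⟩ := exists_pp U hU
    obtain ⟨V', hV', rfl⟩ := exists_pp V hV
    intro h
    exact H U' V' hU' hV' (fun h' => hUt ((top_pp U').2 h')) (fun h' => hVt ((top_pp _).2 h'))
      ((top_fsum _ _).1 h)

end TTF
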