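import Pool.Agent.TTF.BooA

/-! TTF / BooT: the Boolean value of Tukey-top, one direction.

PROOF. Let `p ∈ Boo.top (up U)`; by `RO.mem_iSup` there are `r ≤ p` and `A : Boo.FF (RO P)` with (1) `r ∈ (up U).mem (A.ap x)` for
all `x`, (2) `r` in the infimum over `s`. Claim `Top U r` (contradiction to `hT`). Name `R`: `R.mem (X, Y) q` iff
`Dec (A.ap (chk P X)) Y q` (`Dec.mono`, `Dec.of_dense`). For every `q ≤ r`, `R` works at `q`: total by `exists_dec`,
single valued by `Dec.unique`, values in `U` by (1) and `mem_up`. Let `I` be a name, `Infin I q1`, `q1 ≤ q`, and suppose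
`InterMem U R I q2`, `q2 ≤ q1`: there are `s ≤ q2`, `E` with `U.mem E s` and no `t ≤ s` with `I.mem X t`, `R.mem (X, Y) t`,
`¬ E ⊆ Y`. Build `t 0 = s`, `t (n+1) ≤ t n`, `X n ∉ {X 0, .., X (n-1)}`, `I.mem (X n) (t (n+1))` (as in `TopP.lean`), `t'` a lower
bound; (2) for the sequence `i ↦ chk P (X i)`: `t'` is in the hypothesis (`Dec.eqv_compl`, `Dec.of_chk`), so
`t' ∈ ((up U).mem fun n => ⨅ i, A.ap (chk P (X i)) n)ᶜ`. Decide all `A.ap (chk P (X i))` to be `Y i` at some `t'' ≤ t'`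
(`exists_dec_seq`): `E ⊆ Y i` for all `i`; the infimum is decided to be `⋂ i, Y i ⊇ E`, which is in `U` at `t''`
(superset clause of `hU t''`): contradiction (`mem_up`). -/

set_option autoImplicit false

open Set
open scoped symmDiff

namespace TTF

universe u

variable {P : Type u} [Preorder P]

/-- a descending sequence of conditions putting pairwise different reals into an infinite set of reals -/
theorem exists_seq_mem (h : SigmaClosed P) (I : SetName P (Set ℕ)) (s : P) (hI : Infin I s) :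
    ∃ t ≤ s, ∃ X : ℕ → Set ℕ, Function.Injective X ∧ ∀ n, I.mem (X n) t := by
  classical
  have step : ∀ (t : {t : P // t ≤ s}) (F : Finset (Set ℕ)),
      ∃ (t' : {t : P // t ≤ s}) (x : Set ℕ), t'.1 ≤ t.1 ∧ x ∉ F ∧ I.mem x t'.1 := by
    intro t F
    obtain ⟨r, hr, x, hx⟩ := hI F t.1 t.2
    exact ⟨⟨r, hr.trans t.2⟩, x.1, hr, x.2, hx⟩
  choose nt nx h1 h2 h3 using step
  let st : ℕ → {t : P // t ≤ s} × Finset (Set ℕ) := fun n =>
    Nat.rec (⟨s, le_rfl⟩, ∅) (fun _ s => (nt s.1 s.2, insert (nx s.1 s.2) s.2)) n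
  have st_succ : ∀ n, st (n + 1) =
      (nt (st n).1 (st n).2, insert (nx (st n).1 (st n).2) (st n).2) := fun n => rfl
  set t : ℕ → P := fun n => (st n).1.1 with ht
  set x : ℕ → Set ℕ := fun n => nx (st n).1 (st n).2 with hx
  have ht1 : ∀ n, t (n + 1) ≤ t n := by
    intro n
    change (st (n + 1)).1.1 ≤ _
    rw [st_succ]
    exact h1 _ _
  have hxn : ∀ n, x n ∉ (st n).2 := fun n => h2 _ _
  have hxs : ∀ n, x n ∈ (st (n + 1)).2 := by
    intro n
    rw [st_succ]
    exact Finset.mem_insert_self _ _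
  have hsub : ∀ m n, m ≤ n → (st m).2 ⊆ (st n).2 := by
    intro m n hmn
    induction n, hmn using Nat.le_induction with
    | base => exact Finset.Subset.refl _
    | succ n _ ih =>
      refine ih.trans ?_
      rw [st_succ]
      exact Finset.subset_insert _ _
  have hxinj : Function.Injective x := by
    have key : ∀ m n, m < n → x m ≠ x n := by
      intro m n hmn h
      apply hxn n
      rw [← h]
      exact hsub (m + 1) n hmn (hxs m)
    intro m n h
    rcases lt_trichotomy m n with h5 | h5 | h5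
    · exact absurd h (key m n h5)
    · exact h5
    · exact absurd h.symm (key n m h5)
  have hImem : ∀ n, I.mem (x n) (t (n + 1)) := by
    intro n
    change I.mem _ (st (n + 1)).1.1
    rw [st_succ]
    exact h3 _ _
  obtain ⟨t', ht'⟩ := h t ht1
  exact ⟨t', ht' 0, x, hxinj, fun n => I.mono _ _ _ (ht' (n + 1)) (hImem n)⟩

theorem not_mem_top (h : SigmaClosed P) {U : SetName P (Set ℕ)} (hU : ∀ p, Ult U p)
    (hT : ∀ p, fnot (Top U) p) (p : P) : p ∉ Boo.top (up U) := by
  intro hp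
  unfold Boo.top at hp
  obtain ⟨r, hr, A, hA⟩ := RO.mem_iSup.1 hp p le_rfl
  obtain ⟨hA1, hA2⟩ := RO.mem_inf.1 hA
  have hA1' := RO.mem_iInf.1 hA1
  have hA2' := RO.mem_iInf.1 hA2
  refine hT r r le_rfl ?_
  intro q hq
  let R : SetName P (Set ℕ × Set ℕ) :=
    { mem := fun z p => Dec (A.ap (chk P z.1)) z.2 p
      mono := fun z p q hq hp => hp.mono hq
      dense := fun z p hp => Dec.of_dense hp }
  refine ⟨q, le_rfl, R, ⟨?_, ?_, ?_⟩, ?_⟩
  · intro x q' hq'
    obtain ⟨r', hr', X, hX⟩ := exists_dec h (A.ap (chk P x)) q'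
    exact ⟨r', hr', X, hX⟩
  · intro x y y' q' hq' hboth
    exact y'.2 (hboth.1.unique hboth.2)
  · intro x y q' hq' hR
    exact (mem_up hR).1 (RO.mono (hA1' _) (hq'.trans hq))
  · intro I q1 hq1 hI q2 hq2 hInter
    obtain ⟨s, hs, E, hE, hEy⟩ := hInter q2 le_rfl
    have hIs : Infin I s := fun F q' hq' => hI F q' (hq'.trans (hs.trans hq2))
    obtain ⟨t, ht, X, hXinj, hX⟩ := exists_seq_mem h I s hIs
    have htr : t ≤ r := ht.trans (hs.trans (hq2.trans (hq1.trans hq)))
    have h1 : t ∈ ((up U).mem fun n => ⨅ i, A.ap (chk P (X i)) n)ᶜ := by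
      refine RO.mem_himp.1 (hA2' fun i => chk P (X i)) t htr ?_
      rw [RO.mem_iInf]
      intro i
      rw [RO.mem_iInf]
      intro j
      rw [RO.mem_iInf]
      intro hij
      exact (Dec.eqv_compl (Dec.of_chk _ _) (Dec.of_chk _ _)).2 fun h' => hij (hXinj h')
    obtain ⟨t2, ht2, Y, hY⟩ := exists_dec_seq h (fun i => A.ap (chk P (X i))) t
    have hEY : E ⊆ ⋂ i, Y i := by
      refine subset_iInter fun i => ?_
      by_contra hcon
      exact hEy (X i) ⟨Y i, hcon⟩ t2 (ht2.trans ht) ⟨I.mono _ _ _ ht2 (hX i), hY i⟩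
    have hdec : Dec (fun n => ⨅ i, A.ap (chk P (X i)) n) (⋂ i, Y i) t2 := by
      refine Dec.of_mem_iff fun n q' hq' => ?_
      rw [RO.mem_iInf, mem_iInter]
      exact forall_congr' fun i => (hY i).mem_iff hq'
    have hUm : U.mem (⋂ i, Y i) t2 :=
      (hU t2).1.2 E ⟨⋂ i, Y i, hEY⟩ t2 le_rfl (U.mono _ _ _ (ht2.trans ht) hE)
    exact RO.mem_compl.1 h1 t2 ht2 ((mem_up hdec).2 hUm)

end TTF
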