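import Pool.Agent.TTF.Main

/-! TTF / Om: the well order of type `ω₁` as a type, and the final statements. -/

set_option autoImplicit false

open Set Cardinal

namespace TTF

theorem exists_omega1 : ∃ (Ω : Type) (_ : LinearOrder Ω) (_ : WellFoundedLT Ω),
    (∀ a : Ω, (Iio a).Countable) ∧ ¬ (univ : Set Ω).Countable := by
  refine ⟨(ℵ₁ : Cardinal.{0}).ord.ToType, inferInstance, inferInstance, fun a => ?_, fun h => ?_⟩
  · have h1 : #(Iio a) < ℵ₁ := mk_Iio_toType_ord_lt a
    rw [← Cardinal.le_aleph0_iff_set_countable]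
    have h2 : ∀ c : Cardinal.{0}, c < ℵ₁ → c ≤ ℵ₀ := fun c hc => by
      rw [← succ_aleph0] at hc
      exact Order.lt_succ_iff.mp hc
    exact h2 _ h1
  · rw [← Cardinal.le_aleph0_iff_set_countable, mk_univ, mk_toType, card_ord] at h
    exact absurd h (not_le.mpr aleph0_lt_aleph_one)

theorem exists_cond {Ω : Type*} [LinearOrder Ω] [WellFoundedLT Ω] (hu : ¬ (univ : Set Ω).Countable) :
    Nonempty (Cond Ω) := by
  have hne : Nonempty Ω := by
    by_contra h
    rw [not_nonempty_iff] at h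
    exact hu (by rw [Set.univ_eq_empty_iff.2 h]; exact countable_empty)
  obtain ⟨m, -, hm⟩ := (wellFounded_lt (α := Ω)).has_min (univ : Set Ω) univ_nonempty
  exact ⟨⟨m, fun _ => ⟨true, fun _ => ∅, fun _ _ => ∅, fun _ => ⟨∅, fun _ => ∅, fun _ => ∅⟩⟩,
    fun α hα => absurd hα (hm α (mem_univ _))⟩⟩

theorem final : ∃ (P : Type) (_ : Preorder P), Nonempty P ∧ SigmaClosed P ∧ NoNewReals P ∧
    (∀ p : P, fnot (Q1 P) p ∧ fnot (Q2 P) p) ∧
    ∃ U V : SetName P (Set ℕ), ∀ p : P, Ult U p ∧ Ult V p ∧ fnot (Top U) p ∧ fnot (Top V) p ∧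
      Top (fprod U V) p := by
  obtain ⟨Ω, _, _, hc, hu⟩ := exists_omega1
  have hs : SigmaClosed (Cond Ω) := sigmaClosed hc hu
  exact ⟨Cond Ω, inferInstance, exists_cond hu, hs, noNewReals hs, fun p => main_gen hc hu p,
    UU Ω true, UU Ω false, fun p => ⟨ult hc hu true p, ult hc hu false p, not_top hc hu true p,
      not_top hc hu false p, top_prod hc hu p⟩⟩

end TTF
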