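import Pool.Agent.TTF.BooU
import Pool.Agent.TTF.BooT
import Pool.Agent.TTF.BooP
import Pool.Agent.TTF.BooS
import Pool.Agent.TTF.Om

/-! TTF / BooM: the final theorem in the Boolean-valued form. -/

set_option autoImplicit false

open Set

namespace TTF

theorem boo_gen {P : Type} [Preorder P] [Nonempty P] (hs : SigmaClosed P) {U V : SetName P (Set ℕ)}
    (hU : ∀ p, Ult U p) (hV : ∀ p, Ult V p) (hUT : ∀ p, fnot (Top U) p) (hVT : ∀ p, fnot (Top V) p)
    (hT : ∀ p, Top (fprod U V) p) : Boo.Q1 (RO P) = ⊥ ∧ Boo.Q2 (RO P) = ⊥ := by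
  have h1 : ∀ p : P, p ∈ (Boo.top (up U))ᶜ := fun p q _ => not_mem_top hs hU hUT q
  have h2 : ∀ p : P, p ∈ (Boo.top (up V))ᶜ := fun p q _ => not_mem_top hs hV hVT q
  constructor
  · refine RO.eq_bot fun p hp => ?_
    unfold Boo.Q1 at hp
    rw [RO.mem_iInf] at hp
    have h3 := RO.mem_iInf.1 (hp (up U)) fun _ => up V
    rw [RO.mem_himp] at h3
    refine h3 p le_rfl ?_ p le_rfl (mem_top_fsum hs hU (hT p))
    rw [RO.mem_inf, RO.mem_inf, RO.mem_inf, RO.mem_iInf, RO.mem_iInf]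
    exact ⟨⟨⟨mem_ult hs (hU p), fun _ => mem_ult hs (hV p)⟩, h1 p⟩, fun _ => h2 p⟩
  · refine RO.eq_bot fun p hp => ?_
    unfold Boo.Q2 at hp
    rw [RO.mem_iInf] at hp
    have h3 := RO.mem_iInf.1 (hp (up U)) (up V)
    rw [RO.mem_himp] at h3
    refine h3 p le_rfl ?_ p le_rfl (mem_top_fsum hs hU (hT p))
    rw [RO.mem_inf, RO.mem_inf, RO.mem_inf]
    exact ⟨⟨⟨mem_ult hs (hU p), mem_ult hs (hV p)⟩, h1 p⟩, h2 p⟩

/-- There is a nontrivial complete Boolean algebra in which Q1 and Q2 have the truth value `⊥`. -/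
theorem boo_final : ∃ (B : Type) (_ : CompleteBooleanAlgebra B), Nontrivial B ∧
    Boo.Q1 B = ⊥ ∧ Boo.Q2 B = ⊥ := by
  obtain ⟨P, _, hne, hs, -, -, U, V, h⟩ := final
  have hb := boo_gen hs (fun p => (h p).1) (fun p => (h p).2.1) (fun p => (h p).2.2.1)
    (fun p => (h p).2.2.2.1) (fun p => (h p).2.2.2.2)
  exact ⟨RO P, inferInstance, inferInstance, hb.1, hb.2⟩

end TTF
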