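import Pool.Agent.TTF.BooA

/-! TTF / BooU: the Boolean value of nonprincipal ultrafilter.

PROOF. `RO.mem_inf`, `RO.mem_iInf`, `RO.mem_himp`, `RO.mem_sup`, `RO.mem_compl`; decide all reals involved by `exists_dec`
(densely below the given condition, `mem_up_of_dense` / `RO.dense`), use `mem_up` and the corresponding clause of
`Ult U`. E.g. intersections: `q ≤ p`, `q ∈ mem x ⊓ mem y`; for `q' ≤ q` there is `r ≤ q'` with `Dec x X r`, `Dec y Y r`; then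
`U.mem X r`, `U.mem Y r`, `U.mem (X ∩ Y) r` and `Dec (fun n => x n ⊓ y n) (X ∩ Y) r`. Supersets: `r ∈ sbs x y` gives `X ⊆ Y`.
`⊥` is decided to be `∅`, `sng n` to be `{n}` (finite sets). -/

set_option autoImplicit false

open Set
open scoped symmDiff

namespace TTF

universe u

variable {P : Type u} [Preorder P]

namespace BooUAux

theorem dec_inf {x y : ℕ → RO P} {X Y : Set ℕ} {p : P} (h : Dec x X p) (h' : Dec y Y p) :
    Dec (fun n => x n ⊓ y n) (X ∩ Y) p :=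
  Dec.of_mem_iff fun n q hq => by
    rw [RO.mem_inf, h.mem_iff hq, h'.mem_iff hq]
    exact Iff.rfl

theorem dec_compl {x : ℕ → RO P} {X : Set ℕ} {p : P} (h : Dec x X p) :
    Dec (fun n => (x n)ᶜ) Xᶜ p :=
  Dec.of_mem_iff fun n q hq => by
    rw [RO.mem_compl]
    constructor
    · intro h1 hn
      exact h1 q le_rfl ((h.mem_iff hq).2 hn)
    · intro h1 r hr h2
      exact h1 ((h.mem_iff (hr.trans hq)).1 h2)

theorem dec_bot (p : P) : Dec (fun _ => (⊥ : RO P)) (∅ : Set ℕ) p := fun _ =>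
  ⟨fun hn => hn.elim, fun _ _ _ h => RO.not_mem_bot h⟩

theorem dec_sng (n : ℕ) (p : P) : Dec (Boo.sng (RO P) n) {n} p :=
  Dec.of_chk {n} p

theorem sub_of_sbs {x y : ℕ → RO P} {X Y : Set ℕ} {p : P} (h : Dec x X p) (h' : Dec y Y p)
    (hs : p ∈ Boo.sbs x y) : X ⊆ Y := fun n hn =>
  (h'.mem_iff le_rfl).1 (mem_sbs.1 hs n p le_rfl ((h.mem_iff le_rfl).2 hn))

end BooUAux

open BooUAux

theorem mem_ult (h : SigmaClosed P) {U : SetName P (Set ℕ)} {p : P} (hU : Ult U p) :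
    p ∈ Boo.ult (up U) := by
  obtain ⟨⟨hI, hS⟩, ⟨hC, hF⟩⟩ := hU
  unfold Boo.ult
  refine RO.mem_inf.2 ⟨RO.mem_inf.2 ⟨RO.mem_inf.2 ⟨RO.mem_inf.2 ⟨?_, ?_⟩, ?_⟩, ?_⟩, ?_⟩
  · refine RO.mem_iInf.2 fun x => RO.mem_iInf.2 fun y => RO.mem_himp.2 fun q hq hxy => ?_
    rw [RO.mem_inf] at hxy
    refine mem_up_of_dense fun q' hq' => ?_
    obtain ⟨r1, hr1, X, hX⟩ := exists_dec h x q'
    obtain ⟨r, hr, Y, hY⟩ := exists_dec h y r1
    have hrq : r ≤ q := (hr.trans hr1).trans hq'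
    have hX' := hX.mono hr
    have h1 : U.mem X r := (mem_up hX').1 (RO.mono hxy.1 hrq)
    have h2 : U.mem Y r := (mem_up hY).1 (RO.mono hxy.2 hrq)
    exact ⟨r, hr.trans hr1, X ∩ Y, dec_inf hX' hY, hI X Y r (hrq.trans hq) ⟨h1, h2⟩⟩
  · refine RO.mem_iInf.2 fun x => RO.mem_iInf.2 fun y => RO.mem_himp.2 fun q hq hxy => ?_
    rw [RO.mem_inf] at hxy
    refine mem_up_of_dense fun q' hq' => ?_
    obtain ⟨r1, hr1, X, hX⟩ := exists_dec h x q'
    obtain ⟨r, hr, Y, hY⟩ := exists_dec h y r1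
    have hrq : r ≤ q := (hr.trans hr1).trans hq'
    have hX' := hX.mono hr
    have h1 : U.mem X r := (mem_up hX').1 (RO.mono hxy.2 hrq)
    have h2 : X ⊆ Y := sub_of_sbs hX' hY (RO.mono hxy.1 hrq)
    exact ⟨r, hr.trans hr1, Y, hY, hS X ⟨Y, h2⟩ r (hrq.trans hq) h1⟩
  · refine RO.mem_iInf.2 fun x => RO.mem_sup.2 fun q hq => ?_
    obtain ⟨r1, hr1, X, hX⟩ := exists_dec h x q
    obtain ⟨r, hr, h1⟩ := hC X r1 (hr1.trans hq)
    have hX' := hX.mono hr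
    refine ⟨r, hr.trans hr1, ?_⟩
    rcases h1 with h1 | h1
    · exact Or.inl ((mem_up hX').2 h1)
    · exact Or.inr ((mem_up (dec_compl hX')).2 h1)
  · refine RO.mem_compl.2 fun q hq h1 => ?_
    rw [mem_up (dec_bot q)] at h1
    exact hF ⟨∅, Set.finite_empty⟩ q hq h1
  · refine RO.mem_iInf.2 fun n => RO.mem_compl.2 fun q hq h1 => ?_
    rw [mem_up (dec_sng n q)] at h1
    exact hF ⟨{n}, Set.finite_singleton n⟩ q hq h1

end TTF
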