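import Pool.Agent.TTF.Frc
import Pool.Agent.Helper65.TT_Main

/-!
# TTF: the poset

`Ω` is a well order of type `ω₁`. A condition is a countable sequence of stages (length `len : Ω`); the data of a stage
are a side `b`, the columns `y` of a subset of `ℕ × ℕ` to be decided, a sequence `G` of sets (to be sealed) and, for both
sides `i`, the data `g i` of helper65's construction for the set `{β | b β = i}` (limits where side `i` kills; at the
other limits side `i` seals). `pre A` is the set of pairs coded by `A ⊆ ℕ`.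
-/

set_option autoImplicit false

open Set

namespace TTF

universe u

/-- the data of a stage. -/
structure Dat (Ω : Type u) where
  b : Bool
  y : ℕ → Set ℕ
  G : Ω → ℕ → Set ℕ
  g : Bool → TT.St

variable {Ω : Type u} [LinearOrder Ω]

/-- the stage `α` is good for the side `i`. -/
def GoodAt (d : Ω → Dat Ω) (i : Bool) (α : Ω) : Prop :=
  TT.Good {β | (d β).b = i} (fun β => (d β).y) (fun β => (d β).G) α (fun β => (d β).g i) ((d α).g i)

/-- conditions. -/
structure Cond (Ω : Type u) [LinearOrder Ω] where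
  len : Ω
  d : Ω → Dat Ω
  good : ∀ α < len, ∀ i, GoodAt d i α

instance : Preorder (Cond Ω) where
  le q p := p.len ≤ q.len ∧ ∀ β < p.len, q.d β = p.d β
  le_refl p := ⟨le_rfl, fun _ _ => rfl⟩
  le_trans := fun r q p h1 h2 => ⟨h2.1.trans h1.1, fun β hβ => by
    rw [h1.2 β (lt_of_lt_of_le hβ h2.1), h2.2 β hβ]⟩

/-- the stage data of side `i`. -/
def Cond.gg (p : Cond Ω) (i : Bool) (β : Ω) : TT.St := (p.d β).g i

/-- the set of pairs coded by a set of numbers. -/
def pre (A : Set ℕ) : Set (ℕ × ℕ) := {x | Nat.pair x.1 x.2 ∈ A}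

/-- columns. -/
def col (A : Set ℕ) (j : ℕ) : Set ℕ := {l | Nat.pair j l ∈ A}

/-- `A` is put into the ultrafilter of side `i` by the condition `p`. -/
def Pos (i : Bool) (A : Set ℕ) (p : Cond Ω) : Prop := ∃ γ < p.len, TT.Big (p.gg i) γ (pre A)

/-- the name of the ultrafilter of side `i`. -/
def UU (Ω : Type u) [LinearOrder Ω] (i : Bool) : SetName (Cond Ω) (Set ℕ) where
  mem A := fun p => ∀ q ≤ p, ∃ r ≤ q, Pos i A r
  mono := fun _ _ _ hqp h q' hq' => h q' (hq'.trans hqp)
  dense := fun _ _ h q hq => by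
    obtain ⟨r, hr, h1⟩ := h q hq
    obtain ⟨s, hs, h2⟩ := h1 r le_rfl
    exact ⟨s, hs.trans hr, h2⟩

/-- the set `A_α` of side `i`, coded as a set of numbers. -/
def AA (p : Cond Ω) (i : Bool) (α : Ω) : Set ℕ := {n | (Nat.unpair n).2 ∈ (p.gg i α).A (Nat.unpair n).1}

/-- `α` is the first stage at which the real `x` (as the constant sequence of columns) is considered. -/
def Phi (p : Cond Ω) (x : Set ℕ) (α : Ω) : Prop :=
  α < p.len ∧ (p.d α).y = (fun _ => x) ∧ ∀ β < α, (p.d β).y ≠ fun _ => x

end TTF
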