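import Pool.Agent.TTF.Pos

/-! TTF / Dcd: deciding values of a name of a function into the ultrafilter.

PROOF. Given `q ≤ p` and `x`: by totality (`fex` at `p`, below `q`) there are `r ≤ q` and `y` with `R.mem (x, y) r`;
values are in `U`: `(UU Ω i).mem y r`, so some `s ≤ r` has `Pos i y s`; `R.mono`. -/

set_option autoImplicit false

open Set

namespace TTF

universe u

variable {Ω : Type u} [LinearOrder Ω]

/-- `r` decides the value `y` of `R` at `x` and puts it into the ultrafilter. -/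
def Dcd (i : Bool) (R : SetName (Cond Ω) (Set ℕ × Set ℕ)) (r : Cond Ω) (x y : Set ℕ) : Prop :=
  R.mem (x, y) r ∧ Pos i y r

/-- the test with parameters `a, k, Z, B, F`. -/
def Test (i : Bool) (r : Cond Ω) (C : Ω → ℕ → Set ℕ) (a : Finset ℕ) (k : ℕ) (Z : Finset (ℕ × ℕ))
    (B F : Finset (ℕ × Ω)) (y : Set ℕ) : Prop :=
  TT.Pat (col y) k Z ∧ ∀ j ∈ a, (TT.cell (fun β => (r.gg i β).D) C B F j ∩ col y j).Infinite

theorem dcd_mono {i : Bool} {R : SetName (Cond Ω) (Set ℕ × Set ℕ)} {p q : Cond Ω} (h : q ≤ p) {x y : Set ℕ}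
    (hd : Dcd i R p x y) : Dcd i R q x y := by
  exact ⟨R.mono _ _ _ h hd.1, pos_mono h hd.2⟩

theorem dcd_dense {i : Bool} {R : SetName (Cond Ω) (Set ℕ × Set ℕ)} {p : Cond Ω} (hR : IsFun (UU Ω i) R p)
    (q : Cond Ω) (hq : q ≤ p) (x : Set ℕ) : ∃ r ≤ q, ∃ y, Dcd i R r x y := by
  obtain ⟨r, hr, y, hy⟩ := hR.1 x q hq
  have h1 : (UU Ω i).mem y r := hR.2.2 x y r (hr.trans hq) hy
  obtain ⟨s, hs, h2⟩ := h1 r le_rfl
  exact ⟨s, hs.trans hr, y, R.mono _ _ _ hs hy, h2⟩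

theorem test_congr {i : Bool} {r r' : Cond Ω} {C C' : Ω → ℕ → Set ℕ} {a : Finset ℕ} {k : ℕ}
    {Z : Finset (ℕ × ℕ)} {B F : Finset (ℕ × Ω)} {y : Set ℕ} (hB : ∀ z ∈ B, r.gg i z.2 = r'.gg i z.2)
    (hF : ∀ z ∈ F, C z.2 = C' z.2) (h : Test i r C a k Z B F y) : Test i r' C' a k Z B F y := by
  refine ⟨h.1, fun j hj => (h.2 j hj).mono ?_⟩
  rintro l ⟨⟨h1, h2⟩, h3⟩
  refine ⟨⟨fun z hz hzj => ?_, fun z hz hzj => ?_⟩, h3⟩
  · have h4 := h1 z hz hzj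
    change l ∈ (r'.gg i z.2).D j
    rw [← hB z hz]
    exact h4
  · rw [← hF z hz]
    exact h2 z hz hzj

end TTF
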