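import Pool.Agent.Helper65.TT_Main

/-! TTF / Diag: the diagonal set (Steps 5 to 9 of `TT.sealing_main`, pure combinatorics).

PROOF. Choose `s'` strictly increasing with, for every `k`, `(l ∈ c (s' k) j ↔ l ∈ cs j)` for `j, l < k` and
`AS (Dd j) (c (s' k) j)` for `j < k`, `j ∈ u`, `m0 ≤ j` (`h2`). `mk k` with `AS (D j) (c (s' k) j)` for `j ≥ mk k`, `j ∈ u`
(`h3`). `M = m0`. `star`: for `j ≥ M`, `j ∈ u`, (`j < k` or `mk k ≤ j`): `AS (D j) (c (s' k) j)` (via `Dd` if `j < k`).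
Step 7: for every `k` there is `nk > k`, `nk ≥ mk k`, with: for `M ≤ j < k`, `j ∈ u`, `l ∈ D j`, `l ≥ nk`:
`l ∈ c (s' k) j`. `ks 0 = M`, `ks (i+1) = nk (ks i)`, `s i = s' (ks i)`. The set `E0` is as in the statement, and it is
`Big` by `star` (for `j ≥ M`, finitely many `i` with `ks (i+1) ≤ j`, `TT.AS.biInter`). Last claim: if `ks (i+1) ≤ x.1` it is
in the definition of `E0`; otherwise `x.1 < ks i`; if `x.2 < ks i` use the agreement with `cs` on `ks i × ks i`; otherwise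
`x.2 ≥ ks (i+1)` and use Step 7. -/

set_option autoImplicit false

open Set Filter

namespace TTF

private lemma ev_mem {s t : Set ℕ} (h : TT.AS s t) : ∃ b : ℕ, ∀ l ∈ s, b ≤ l → l ∈ t := by
  obtain ⟨b, hb⟩ := (h : (s \ t).Finite).bddAbove
  refine ⟨b + 1, fun l hl hbl => ?_⟩
  by_contra hlt
  have := hb (show l ∈ s \ t from ⟨hl, hlt⟩)
  omega

theorem diag_sets (u : Set ℕ) (D Dd cs : ℕ → Set ℕ) (c : ℕ → ℕ → Set ℕ) (m0 : ℕ)
    (h1 : ∀ j ≥ m0, j ∈ u → TT.AS (D j) (cs j) ∧ TT.AS (D j) (Dd j))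
    (h2 : ∀ k N, ∃ n ≥ N, (∀ j < k, ∀ l < k, (l ∈ c n j ↔ l ∈ cs j)) ∧
      ∀ j < k, j ∈ u → m0 ≤ j → TT.AS (Dd j) (c n j))
    (h3 : ∀ n, ∀ᶠ j in atTop, j ∈ u → TT.AS (D j) (c n j)) :
    ∃ (s ks : ℕ → ℕ) (E0 : Set (ℕ × ℕ)), StrictMono s ∧ StrictMono ks ∧
      (∀ᶠ j in atTop, j ∈ u → TT.AS (D j) {l | (j, l) ∈ E0}) ∧
      ∀ x ∈ E0, ∀ i, ¬ (ks i ≤ x.1 ∧ x.1 < ks (i + 1)) → ¬ (ks i ≤ x.2 ∧ x.2 < ks (i + 1)) →
        x.2 ∈ c (s i) x.1 := by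
  classical
  -- Step 5
  choose f hf1 hf2 hf3 using h2
  obtain ⟨s', hs'0, hs's⟩ : ∃ s' : ℕ → ℕ, s' 0 = f 0 0 ∧ ∀ n, s' (n + 1) = f (n + 1) (s' n + 1) :=
    ⟨fun n => Nat.rec (f 0 0) (fun k x => f (k + 1) (x + 1)) n, rfl, fun _ => rfl⟩
  have hs1 : StrictMono s' := strictMono_nat_of_lt_succ fun n => by
    rw [hs's]
    exact hf1 (n + 1) (s' n + 1)
  have hs2 : ∀ k, ∀ j < k, ∀ l < k, (l ∈ c (s' k) j ↔ l ∈ cs j) := by
    intro k
    cases k with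
    | zero => rw [hs'0]; exact hf2 _ _
    | succ k => rw [hs's]; exact hf2 _ _
  have hs3 : ∀ k, ∀ j < k, j ∈ u → m0 ≤ j → TT.AS (Dd j) (c (s' k) j) := by
    intro k
    cases k with
    | zero => rw [hs'0]; exact hf3 _ _
    | succ k => rw [hs's]; exact hf3 _ _
  -- Step 6
  have hmk : ∀ k, ∃ m, ∀ j ≥ m, j ∈ u → TT.AS (D j) (c (s' k) j) := fun k =>
    eventually_atTop.1 (h3 (s' k))
  choose mk hmk using hmk
  have star : ∀ k, ∀ j ≥ m0, j ∈ u → (j < k ∨ mk k ≤ j) → TT.AS (D j) (c (s' k) j) := by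
    intro k j hj hju h
    rcases h with h | h
    · exact (h1 j hj hju).2.trans (hs3 k j h hju hj)
    · exact hmk k j h hju
  -- Step 7
  have step7 : ∀ k, ∃ k', k < k' ∧ mk k ≤ k' ∧ ∀ j, m0 ≤ j → j < k → j ∈ u →
      ∀ l ∈ D j, k' ≤ l → l ∈ c (s' k) j := by
    intro k
    have hb : ∀ j, ∃ b, m0 ≤ j → j < k → j ∈ u → ∀ l ∈ D j, b ≤ l → l ∈ c (s' k) j := by
      intro j
      by_cases h : m0 ≤ j ∧ j < k ∧ j ∈ u
      · obtain ⟨b, hb⟩ := ev_mem (star k j h.1 h.2.2 (Or.inl h.2.1))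
        exact ⟨b, fun _ _ _ l hl hbl => hb l hl hbl⟩
      · exact ⟨0, fun h1 h2 h3 => absurd ⟨h1, h2, h3⟩ h⟩
    choose b hb using hb
    refine ⟨max (max (k + 1) (mk k)) ((Finset.range k).sup b), ?_, ?_, ?_⟩
    · exact lt_of_lt_of_le (Nat.lt_succ_self k) (le_trans (le_max_left _ _) (le_max_left _ _))
    · exact le_trans (le_max_right _ _) (le_max_left _ _)
    · intro j h1 h2 h3 l hl hl'
      refine hb j h1 h2 h3 l hl (le_trans ?_ hl')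
      exact le_trans (Finset.le_sup (f := b) (Finset.mem_range.2 h2)) (le_max_right _ _)
  choose nk hnk1 hnk2 hnk3 using step7
  obtain ⟨ks, hks0, hkss⟩ : ∃ ks : ℕ → ℕ, ks 0 = m0 ∧ ∀ n, ks (n + 1) = nk (ks n) :=
    ⟨fun n => Nat.rec m0 (fun _ x => nk x) n, rfl, fun _ => rfl⟩
  have hks : StrictMono ks := strictMono_nat_of_lt_succ fun n => by
    rw [hkss]; exact hnk1 _
  have hks2 : ∀ i, mk (ks i) ≤ ks (i + 1) := fun i => by rw [hkss]; exact hnk2 _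
  have hks3 : ∀ i, ∀ j, m0 ≤ j → j < ks i → j ∈ u →
      ∀ l ∈ D j, ks (i + 1) ≤ l → l ∈ c (s' (ks i)) j := fun i => by
    rw [hkss]; exact hnk3 _
  -- Step 8
  refine ⟨fun i => s' (ks i), ks, {p | p.1 ∈ u ∧ m0 ≤ p.1 ∧ p.2 ∈ D p.1 ∧ p.2 ∈ cs p.1 ∧
    ∀ i, ks (i + 1) ≤ p.1 → p.2 ∈ c (s' (ks i)) p.1}, hs1.comp hks, hks, ?_, ?_⟩
  · filter_upwards [eventually_ge_atTop m0] with j hj hju
    have h4 : TT.AS (D j) {l | ∀ i ∈ (Finset.range j).filter (fun i => ks (i + 1) ≤ j),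
        l ∈ c (s' (ks i)) j} := by
      refine TT.AS.biInter _ fun i hi => ?_
      have hi' := (Finset.mem_filter.1 hi).2
      exact star (ks i) j hj hju (Or.inr (le_trans (hks2 i) hi'))
    have h5 := ((TT.AS.refl (D j)).inter (h1 j hj hju).1).inter h4
    refine h5.mono_right ?_
    rintro l ⟨⟨hl1, hl2⟩, hl3⟩
    refine ⟨hju, hj, hl1, hl2, fun i hi => hl3 i ?_⟩
    have hi1 : i + 1 ≤ ks (i + 1) := hks.id_le (i + 1)
    have hi2 : ks (i + 1) ≤ j := hi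
    exact Finset.mem_filter.2 ⟨Finset.mem_range.2 (by omega), hi2⟩
  -- Step 9
  · rintro ⟨j, l⟩ ⟨h4, h5, h6, h7, h8⟩ i hj0 hl0
    simp only at h4 h5 h6 h7 h8 hj0 hl0 ⊢
    by_cases hj : ks (i + 1) ≤ j
    · exact h8 i hj
    · have hj' : j < ks i := by
        by_contra h
        exact hj0 ⟨not_lt.1 h, not_le.1 hj⟩
      by_cases hl : l < ks i
      · exact (hs2 (ks i) j hj' l hl).2 h7
      · have hl' : ks (i + 1) ≤ l := by
          by_contra h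
          exact hl0 ⟨not_lt.1 hl, not_le.1 h⟩
        exact hks3 i j h5 hj' h4 l h6 hl'

end TTF
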