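import Pool.Agent.TTF.Pos

/-! TTF / Ext: one more stage; limits.

PROOF. `exists_ext`: `α = p.len`; first `d1 = Function.update p.d α ⟨b, y, G, default⟩` (any default `St`); for `β < α`
`GoodAt d1 i β` by `goodat_congr`; `TT.exists_stage hc` (for each side `i`, with `S = {β | (d1 β).b = i}` etc.) gives `s i`;
`d2 = Function.update p.d α ⟨b, y, G, s⟩`; `GoodAt d2 i α` because only the values of `g` at `α` changed (use
`TT.Good.congr`; `S`, `Y`, `G` are the same functions for `d1` and `d2`). New length: the least element of `Ω` above `α`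
(exists by `TT.exists_gt'` and well-foundedness), so `β < len` iff `β ≤ α`.
`dec_dense`: `exists_ext` with `y = col A`: the field `dec` of `Good` at the new stage gives for each side `Big` of
`pre A` or of `pre Aᶜ` (as in the proof of `hcompl` in `TT.main_construction`).
`exists_inf`: the lengths are monotone; the set of `x` with `(p n).len ≤ x` for all `n` is nonempty
(`TT.exists_gt_of_countable`); `len` = its least element, so every `β < len` is below some `(p n).len`; `d β` = `(p n).d β`
for such an `n` (independent of `n`), default otherwise; good by `goodat_congr`. -/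

set_option autoImplicit false

open Set

namespace TTF

universe u

variable {Ω : Type u} [LinearOrder Ω]

theorem exists_ext [WellFoundedLT Ω] (hc : ∀ a : Ω, (Iio a).Countable) (hu : ¬ (univ : Set Ω).Countable)
    (p : Cond Ω) (b : Bool) (y : ℕ → Set ℕ) (G : Ω → ℕ → Set ℕ) :
    ∃ q ≤ p, p.len < q.len ∧ (∀ β < q.len, β ≤ p.len) ∧ (q.d p.len).b = b ∧ (q.d p.len).y = y ∧
      (q.d p.len).G = G := by
  classical
  -- the data without the new state
  let s0 : TT.St := ⟨∅, fun _ => ∅, fun _ => ∅⟩
  let d1 : Ω → Dat Ω := Function.update p.d p.len ⟨b, y, G, fun _ => s0⟩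
  have hd1 : ∀ β < p.len, d1 β = p.d β := fun β hβ => Function.update_of_ne hβ.ne _ _
  have hg1 : ∀ i, ∀ β < p.len, GoodAt d1 i β := fun i β hβ =>
    goodat_congr (fun γ hγ => (hd1 γ (lt_of_le_of_lt hγ hβ)).symm) (p.good β hβ i)
  have hs : ∀ i : Bool, ∃ s : TT.St, TT.Good {β | (d1 β).b = i} (fun β => (d1 β).y)
      (fun β => (d1 β).G) p.len (fun β => (d1 β).g i) s := fun i =>
    TT.exists_stage hc (fun β hβ => hg1 i β hβ)
  choose s hs using hs
  let d2 : Ω → Dat Ω := Function.update p.d p.len ⟨b, y, G, s⟩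
  have hd2 : ∀ β < p.len, d2 β = p.d β := fun β hβ => Function.update_of_ne hβ.ne _ _
  have hd2' : d2 p.len = ⟨b, y, G, s⟩ := Function.update_self _ _ _
  have hd1' : d1 p.len = ⟨b, y, G, fun _ => s0⟩ := Function.update_self _ _ _
  have hne : ∀ β, β ≠ p.len → d2 β = d1 β := fun β hβ => by
    change Function.update p.d p.len _ β = Function.update p.d p.len _ β
    rw [Function.update_of_ne hβ, Function.update_of_ne hβ]
  have hb : ∀ β, (d2 β).b = (d1 β).b := by
    intro β
    by_cases h : β = p.len
    · rw [h, hd2', hd1']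
    · rw [hne β h]
  have hy : ∀ β, (d2 β).y = (d1 β).y := by
    intro β
    by_cases h : β = p.len
    · rw [h, hd2', hd1']
    · rw [hne β h]
  have hG : ∀ β, (d2 β).G = (d1 β).G := by
    intro β
    by_cases h : β = p.len
    · rw [h, hd2', hd1']
    · rw [hne β h]
  have hg2 : ∀ i, GoodAt d2 i p.len := by
    intro i
    unfold GoodAt
    have e1 : {β | (d2 β).b = i} = {β | (d1 β).b = i} := by
      ext β
      simp only [Set.mem_ofPred_eq, hb]
    have e2 : (fun β => (d2 β).y) = fun β => (d1 β).y := funext hy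
    have e3 : (fun β => (d2 β).G) = fun β => (d1 β).G := funext hG
    have e4 : (d2 p.len).g i = s i := by rw [hd2']
    rw [e1, e2, e3, e4]
    refine (hs i).congr fun β hβ => ?_
    rw [hne β hβ.ne]
  -- the new length
  have hgt : ({x | p.len < x} : Set Ω).Nonempty := TT.exists_gt' hc hu p.len
  have hwf := (wellFounded_lt : WellFounded ((· < ·) : Ω → Ω → Prop))
  have hmin := hwf.min_mem _ hgt
  have hlt : ∀ β < hwf.min _ hgt, β ≤ p.len := fun β hβ => by
    by_contra hcon
    exact hwf.not_lt_min {x | p.len < x} (not_le.1 hcon) hβ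
  refine ⟨⟨hwf.min _ hgt, d2, fun β hβ i => ?_⟩, ⟨le_of_lt hmin, hd2⟩, hmin, hlt, ?_, ?_, ?_⟩
  · rcases (hlt β hβ).lt_or_eq with h | h
    · exact goodat_congr (fun γ hγ => (hd2 γ (lt_of_le_of_lt hγ h)).symm) (p.good β h i)
    · rw [h]
      exact hg2 i
  · change (d2 p.len).b = b
    rw [hd2']
  · change (d2 p.len).y = y
    rw [hd2']
  · change (d2 p.len).G = G
    rw [hd2']

theorem dec_dense [WellFoundedLT Ω] (hc : ∀ a : Ω, (Iio a).Countable) (hu : ¬ (univ : Set Ω).Countable)
    (p : Cond Ω) (A : Set ℕ) : ∃ q ≤ p, p.len < q.len ∧ ∀ i, Pos i A q ∨ Pos i Aᶜ q := by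
  obtain ⟨q, hqp, hlen, -, -, hy, -⟩ := exists_ext hc hu p false (col A) (fun _ _ => ∅)
  refine ⟨q, hqp, hlen, fun i => ?_⟩
  have hg := (q.good p.len hlen i).dec
  rcases hg with h | h
  · refine Or.inl ⟨p.len, hlen, Filter.Eventually.of_forall fun j hj => ?_⟩
    have h1 := h j hj
    rw [hy] at h1
    exact h1
  · refine Or.inr ⟨p.len, hlen, Filter.Eventually.of_forall fun j hj => ?_⟩
    have h1 := h j hj
    rw [hy] at h1
    refine Set.Finite.subset h1 ?_
    rintro l ⟨hl1, hl2⟩
    refine ⟨hl1, ?_⟩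
    by_contra hl3
    exact hl2 hl3

end TTF
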