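import Mathlib

/-!
# Forcing with a σ-closed poset: the forcing relation for the statements Q1, Q2

`P` is a notion of forcing (stronger conditions are smaller). A forcing statement is a map `P → Prop`
(`φ p`: `p` forces `φ`). As `P` is σ-closed it adds no new subsets of `ℕ`, so natural numbers, subsets of `ℕ` and finite
sets of subsets of `ℕ` of the extension are those of the ground model; sets of reals, ultrafilters on `ℕ` and functions
on the reals are given by names.
-/

set_option autoImplicit false

open Set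

namespace TTF

universe u v

/-- statements of the forcing language: `φ p` means that `p` forces `φ`. -/
abbrev FF (P : Type u) : Type u := P → Prop

variable {P : Type u} [Preorder P]

/-- `p ⊩ ¬ φ`: no stronger condition forces `φ`. -/
def fnot (φ : FF P) : FF P := fun p => ∀ q ≤ p, ¬ φ q

/-- `p ⊩ φ ∧ ψ`. -/
def fand (φ ψ : FF P) : FF P := fun p => φ p ∧ ψ p

/-- `p ⊩ φ ∨ ψ`: densely below `p` one of them is forced. -/
def forr (φ ψ : FF P) : FF P := fun p => ∀ q ≤ p, ∃ r ≤ q, φ r ∨ ψ r

/-- `p ⊩ φ → ψ`: every stronger condition forcing `φ` forces `ψ`. -/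
def fimp (φ ψ : FF P) : FF P := fun p => ∀ q ≤ p, φ q → ψ q

/-- `p ⊩ ∀ x, φ x`. -/
def fall {X : Type v} (φ : X → FF P) : FF P := fun p => ∀ x, φ x p

/-- `p ⊩ ∃ x, φ x`: densely below `p` an instance is forced. -/
def fex {X : Type v} (φ : X → FF P) : FF P := fun p => ∀ q ≤ p, ∃ r ≤ q, ∃ x, φ x r

/-- A name for a subset of (the ground model set) `X`: `mem x p` means `p ⊩ x ∈ name`. -/
structure SetName (P : Type u) [Preorder P] (X : Type v) where
  mem : X → FF P
  mono : ∀ x p q, q ≤ p → mem x p → mem x q
  dense : ∀ x p, (∀ q ≤ p, ∃ r ≤ q, mem x r) → mem x p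

/-- every descending sequence of conditions has a lower bound. -/
def SigmaClosed (P : Type u) [Preorder P] : Prop :=
  ∀ p : ℕ → P, (∀ n, p (n + 1) ≤ p n) → ∃ q, ∀ n, q ≤ p n

/-- no new reals: every name for a subset of `ℕ` is decided densely. -/
def NoNewReals (P : Type u) [Preorder P] : Prop :=
  ∀ (a : SetName P ℕ) (p : P), ∃ q ≤ p, ∃ x : Set ℕ, ∀ n, (n ∈ x → a.mem n q) ∧ (n ∉ x → fnot (a.mem n) q)

/-- `U` is a nonprincipal ultrafilter on `X` (`X` is `ℕ` or `ℕ × ℕ`). -/
def Ult {X : Type} (U : SetName P (Set X)) : FF P :=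
  fand (fand (fall fun A : Set X => fall fun B : Set X => fimp (fand (U.mem A) (U.mem B)) (U.mem (A ∩ B)))
      (fall fun A : Set X => fall fun B : {B : Set X // A ⊆ B} => fimp (U.mem A) (U.mem B)))
    (fand (fall fun A : Set X => forr (U.mem A) (U.mem Aᶜ))
      (fall fun A : {A : Set X // A.Finite} => fnot (U.mem A)))

/-- `R` is a function from the set of reals to `U`. -/
def IsFun {X : Type} (U : SetName P (Set X)) (R : SetName P (Set ℕ × Set X)) : FF P :=
  fand (fall fun x : Set ℕ => fex fun y : Set X => R.mem (x, y))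
    (fand (fall fun x : Set ℕ => fall fun y : Set X => fall fun y' : {y' : Set X // y ≠ y'} =>
        fnot (fand (R.mem (x, y)) (R.mem (x, y'))))
      (fall fun x : Set ℕ => fall fun y : Set X => fimp (R.mem (x, y)) (U.mem y)))

/-- the set of reals `I` is infinite. -/
def Infin (I : SetName P (Set ℕ)) : FF P :=
  fall fun F : Finset (Set ℕ) => fex fun x : {x : Set ℕ // x ∉ F} => I.mem x

/-- the intersection of the sets `R x`, `x ∈ I`, belongs to `U` (some `E ∈ U` is contained in all of them). -/
def InterMem {X : Type} (U : SetName P (Set X)) (R : SetName P (Set ℕ × Set X)) (I : SetName P (Set ℕ)) : FF P :=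
  fex fun E : Set X => fand (U.mem E)
    (fall fun x : Set ℕ => fall fun y : {y : Set X // ¬ E ⊆ y} => fnot (fand (I.mem x) (R.mem (x, y))))

/-- `U` is Tukey-top: there are `R x ∈ U` for all reals `x` such that no intersection of infinitely many of them
belongs to `U`. -/
def Top {X : Type} (U : SetName P (Set X)) : FF P :=
  fex fun R : SetName P (Set ℕ × Set X) => fand (IsFun U R)
    (fall fun I : SetName P (Set ℕ) => fimp (Infin I) (fnot (InterMem U R I)))

/-- the Fubini sum: `E` belongs to it iff there is `N ∈ U` with `{m | (n, m) ∈ E} ∈ V n` for all `n ∈ N`. -/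
def fsum (U : SetName P (Set ℕ)) (V : ℕ → SetName P (Set ℕ)) : SetName P (Set (ℕ × ℕ)) where
  mem E := fex fun N : Set ℕ => fand (U.mem N) (fall fun n : N => (V n).mem {m | ((n : ℕ), m) ∈ E})
  mono := fun _ _ _ hqp h q' hq' => h q' (hq'.trans hqp)
  dense := fun _ _ h q hq => by
    obtain ⟨r, hr, h1⟩ := h q hq
    obtain ⟨s, hs, N, hN⟩ := h1 r le_rfl
    exact ⟨s, hs.trans hr, N, hN⟩

/-- the Fubini product. -/
def fprod (U V : SetName P (Set ℕ)) : SetName P (Set (ℕ × ℕ)) := fsum U fun _ => V

/-- Q1 in the forcing language. -/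
def Q1 (P : Type u) [Preorder P] : FF P :=
  fall fun U : SetName P (Set ℕ) => fall fun V : ℕ → SetName P (Set ℕ) =>
    fimp (fand (fand (Ult U) (fall fun n => Ult (V n))) (fand (fnot (Top U)) (fall fun n => fnot (Top (V n)))))
      (fnot (Top (fsum U V)))

/-- Q2 in the forcing language. -/
def Q2 (P : Type u) [Preorder P] : FF P :=
  fall fun U : SetName P (Set ℕ) => fall fun V : SetName P (Set ℕ) =>
    fimp (fand (fand (Ult U) (Ult V)) (fand (fnot (Top U)) (fnot (Top V)))) (fnot (Top (fprod U V)))

end TTF
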