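import Pool.Agent.TTF.Pos

/-! TTF / Inf: limits of descending sequences.

PROOF. `exists_inf`: the lengths are monotone; the set of `x` with `(p n).len ≤ x` for all `n` is nonempty
(`TT.exists_gt_of_countable`); `len` = its least element, so every `β < len` is below some `(p n).len`; `d β` = `(p n).d β`
for such an `n` (independent of `n`; choose the least one), default data otherwise; good by `goodat_congr`. -/

set_option autoImplicit false

open Set

namespace TTF

universe u

variable {Ω : Type u} [LinearOrder Ω]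

theorem exists_inf [WellFoundedLT Ω] (hc : ∀ a : Ω, (Iio a).Countable) (hu : ¬ (univ : Set Ω).Countable)
    (p : ℕ → Cond Ω) (hp : ∀ n, p (n + 1) ≤ p n) :
    ∃ q, (∀ n, q ≤ p n) ∧ ∀ β < q.len, ∃ n, β < (p n).len := by
  classical
  have hanti : Antitone p := antitone_nat_of_succ_le hp
  obtain ⟨x, hx⟩ := TT.exists_gt_of_countable hc hu (range fun n => (p n).len) (countable_range _)
  have hL : {x : Ω | ∀ n, (p n).len ≤ x}.Nonempty := ⟨x, fun n => (hx _ ⟨n, rfl⟩).le⟩
  have hwf : WellFounded ((· < ·) : Ω → Ω → Prop) := wellFounded_lt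
  set len : Ω := hwf.min {x : Ω | ∀ n, (p n).len ≤ x} hL with hlen
  have hmem : ∀ n, (p n).len ≤ len := hwf.min_mem {x : Ω | ∀ n, (p n).len ≤ x} hL
  have hlt : ∀ β < len, ∃ n, β < (p n).len := by
    intro β hβ
    by_contra hcon
    push Not at hcon
    exact hwf.not_lt_min {x : Ω | ∀ n, (p n).len ≤ x} hcon hβ
  set d : Ω → Dat Ω := fun β => if h : ∃ n, β < (p n).len then (p (Nat.find h)).d β else (p 0).d β
    with hd
  have hdn : ∀ n, ∀ β < (p n).len, d β = (p n).d β := by
    intro n β hβ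
    have h : ∃ n, β < (p n).len := ⟨n, hβ⟩
    have h1 : d β = (p (Nat.find h)).d β := by
      rw [hd]
      simp only
      rw [dif_pos h]
    rw [h1]
    have h2 : p n ≤ p (Nat.find h) := hanti (Nat.find_min' h hβ)
    exact (h2.2 β (Nat.find_spec h)).symm
  refine ⟨⟨len, d, fun α hα i => ?_⟩, fun n => ⟨hmem n, fun β hβ => hdn n β hβ⟩, hlt⟩
  obtain ⟨n, hn⟩ := hlt α hα
  exact goodat_congr (fun β hβ => (hdn n β (lt_of_le_of_lt hβ hn)).symm) ((p n).good α hn i)

theorem sigmaClosed [WellFoundedLT Ω] (hc : ∀ a : Ω, (Iio a).Countable) (hu : ¬ (univ : Set Ω).Countable) :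
    SigmaClosed (Cond Ω) := by
  intro p hp
  obtain ⟨q, hq, -⟩ := exists_inf hc hu p hp
  exact ⟨q, hq⟩

end TTF
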