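import Pool.Agent.TTF.Ext

/-! TTF / Kill: killing at limits, and the sets `A_α` belong to the ultrafilter.

PROOF. `kill`: let `γ < p.len`, `Big (p.gg i) γ (pre E)`; by `big_up` we may take `γ ≥ δ` (replace `γ` by `max γ δ`). For
large `j`: `j ∈ u_γ → AS (D_γ j) {l | (j,l) ∈ pre E}` and (if `γ > δ`) `AS (D_γ j) (D_δ j)` (`below` at `γ`); take such a
`j ∈ u_γ` (infinite). The field `kill` at `δ` (`δ` is a limit, `(p.d δ).b = i` says `δ ∈ S`) gives `η < δ` with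
`(D_δ j ∩ (p.gg i β).A j)` finite for `η ≤ β < δ`; take `β ∈ J`, `β > η`; `pre E ⊆ {(j,l) | l ∈ (p.gg i β).A j}` because
`E ⊆ AA p i β` (`Nat.unpair_pair`). So `D_γ j` is almost contained in a finite set, contradiction with `Dinf`.
`aa_mem`: for `q ≤ p` extend once (`exists_ext`): at the new stage `γ = q.len > α`, `below` gives
`AS (D_γ j) (D_α j ∩ A_α j)` for large `j`, i.e. `Big` at `γ` of `{x | x.2 ∈ (q.gg i α).A x.1} = pre (AA q i α)`;
`AA q i α = AA p i α` by `gg_eq`. -/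

set_option autoImplicit false

open Set

namespace TTF

universe u

variable {Ω : Type u} [LinearOrder Ω]

theorem kill (p : Cond Ω) (i : Bool) (δ : Ω) (hδ : δ < p.len) (hlim : TT.IsLim δ) (hb : (p.d δ).b = i) (J : Set Ω)
    (hJ : ∀ β ∈ J, β < δ) (hJc : ∀ α < δ, ∃ β ∈ J, α < β) (E : Set ℕ) (hE : ∀ β ∈ J, E ⊆ AA p i β) :
    ¬ Pos i E p := by
  rintro ⟨γ0, hγ0, hbig0⟩
  obtain ⟨γ, hγ⟩ : ∃ γ, γ = max γ0 δ := ⟨_, rfl⟩
  have hγ0' : γ0 ≤ γ := hγ ▸ le_max_left _ _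
  have hδγ : δ ≤ γ := hγ ▸ le_max_right _ _
  have hγl : γ < p.len := hγ ▸ max_lt hγ0 hδ
  have hbig := big_up p i hγ0' hγl hbig0
  have gγ := p.good γ hγl i
  have gδ := p.good δ hδ i
  have hAS : ∀ᶠ j in Filter.atTop, TT.AS ((p.gg i γ).D j) ((p.gg i δ).D j) := by
    rcases hδγ.lt_or_eq with h | h
    · filter_upwards [(gγ.below δ h).2] with j hj
      exact hj.mono_right inter_subset_left
    · rw [h]
      exact Filter.Eventually.of_forall fun j => TT.AS.refl _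
  obtain ⟨b, hb'⟩ := Filter.eventually_atTop.1 (hbig.and hAS)
  obtain ⟨j, hj, hbj⟩ := gγ.uinf.exists_gt b
  obtain ⟨h3, h4⟩ := hb' j hbj.le
  have h5 := h3 hj
  obtain ⟨η, hη, h6⟩ := gδ.kill hlim hb j
  obtain ⟨β, hβ, hηβ⟩ := hJc η hη
  have h7 := h6 β (hJ β hβ) hηβ.le
  have h8 : TT.AS ((p.gg i γ).D j) ((p.gg i δ).D j ∩ (p.gg i β).A j) := by
    refine h4.inter (h5.mono_right ?_)
    intro l hl
    have hl' : Nat.pair j l ∈ E := hl
    have h9 := hE β hβ hl'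
    simpa [AA, Nat.unpair_pair] using h9
  exact h8.infinite (gγ.Dinf j) h7

theorem aa_eq {p q : Cond Ω} (h : q ≤ p) (i : Bool) {α : Ω} (hα : α < p.len) : AA q i α = AA p i α := by
  unfold AA
  rw [gg_eq h i hα]

theorem aa_mem [WellFoundedLT Ω] (hc : ∀ a : Ω, (Iio a).Countable) (hu : ¬ (univ : Set Ω).Countable) (p : Cond Ω)
    (i : Bool) (α : Ω) (hα : α < p.len) : (UU Ω i).mem (AA p i α) p := by
  intro q hq
  obtain ⟨r, hr, hlen, -⟩ := exists_ext hc hu q false (fun _ => ∅) (fun _ _ => ∅)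
  refine ⟨r, hr, q.len, hlen, ?_⟩
  have hαq : α < q.len := lt_of_lt_of_le hα hq.1
  have hg := r.good q.len hlen i
  rw [← aa_eq (hr.trans hq) i hα]
  filter_upwards [(hg.below α hαq).2] with j hj _
  refine TT.AS.mono_right hj ?_
  rintro l ⟨-, hl⟩
  have hl' : l ∈ (r.gg i α).A j := hl
  simpa [pre, AA, Nat.unpair_pair] using hl'

end TTF
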