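import Pool.Agent.TTF.Ext

set_option autoImplicit false

open Set

namespace TTF

universe u

variable {Ω : Type u} [LinearOrder Ω]

theorem mem_of_pos {p : Cond Ω} {i : Bool} {A : Set ℕ} (h : Pos i A p) : (UU Ω i).mem A p :=
  fun q hq => ⟨q, le_rfl, pos_mono hq h⟩

theorem ult [WellFoundedLT Ω] (hc : ∀ a : Ω, (Iio a).Countable) (hu : ¬ (univ : Set Ω).Countable) (i : Bool)
    (p : Cond Ω) : Ult (UU Ω i) p := by
  refine ⟨⟨?_, ?_⟩, ?_, ?_⟩
  · intro A B q hq h q' hq'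
    obtain ⟨r, hr, hA⟩ := h.1 q' hq'
    obtain ⟨s, hs, hB⟩ := h.2 r (hr.trans hq')
    exact ⟨s, hs.trans hr, pos_inter (pos_mono hs hA) hB⟩
  · intro A B q hq h q' hq'
    obtain ⟨r, hr, hA⟩ := h q' hq'
    exact ⟨r, hr, pos_superset B.2 hA⟩
  · intro A q hq
    obtain ⟨r, hr, -, h⟩ := dec_dense hc hu q A
    exact ⟨r, hr, (h i).imp mem_of_pos mem_of_pos⟩
  · intro A q hq h
    obtain ⟨r, hr, hA⟩ := h q le_rfl
    exact not_pos_finite A.2 hA

end TTF
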