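import Pool.Agent.TTF.TopF
import Pool.Agent.TTF.Inf
import Pool.Agent.TTF.UltN

/-! TTF / TopP: the Fubini product is forced to be Tukey-top.

PROOF. `Top`: at any condition take the name `RR`, `rr_fun`. Let `I` be a name, `Infin I q`, `q1 ≤ q`, and suppose
`InterMem _ RR I q1`. Build `t 0 = q1`, `t (n+1) ≤ t n`, reals `x n ∉ {x 0, .., x (n-1)}` with `I.mem (x n) (t (n+1))`
(`Infin`) and `Phi (t (n+1)) (x n) (α n)` (`phi_dense`). `t'` = lower bound (`exists_inf`). The `α n` are pairwise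
different (`phi_inj`) and `< t'.len`. `TT.exists_lim_of_infinite` applied to `range α` gives a limit `δ` and
`J ⊆ range α` cofinal in `δ`; `δ ≤ t'.len` (otherwise some `β ∈ J` is `> t'.len`). Extend `t'` to `t''` with
`t''.len > t'.len ≥ δ` (`exists_ext`). By `InterMem` there are `s ≤ t''` and `E` with `E` in the product at `s` and
`E ⊆ y` whenever `I.mem x s` and `RR.mem (x, y) s`; so `E ⊆ AA s true (α n) ×ˢ AA s false (α n)` for all `n` (`rr_mem`).
Take `s' ≤ s` and `N` with `(UU true).mem N s'`, `(UU false).mem {m | (n,m) ∈ E} s'` for `n ∈ N`. A set in `UU` at a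
condition is nonempty (`not_pos_finite`). If `(s'.d δ).b = true`: `N ⊆ AA s' true β` for all `β ∈ J`, contradiction to
`kill` (go to `s'' ≤ s'` with `Pos true N s''`). If it is `false`: take `n ∈ N`, `{m | (n,m) ∈ E} ⊆ AA s' false β` for all
`β ∈ J`, contradiction to `kill`. -/

set_option autoImplicit false

open Set

namespace TTF

universe u

variable {Ω : Type u} [LinearOrder Ω]

theorem top_prod [WellFoundedLT Ω] (hc : ∀ a : Ω, (Iio a).Countable) (hu : ¬ (univ : Set Ω).Countable)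
    (p : Cond Ω) : Top (fprod (UU Ω true) (UU Ω false)) p := by
  classical
  intro q hq
  refine ⟨q, le_rfl, RR Ω, rr_fun hc hu q, ?_⟩
  intro I q0 _ hI q1 hq1 hInter
  -- the sequence
  have step : ∀ (t : {t : Cond Ω // t ≤ q1}) (F : Finset (Set ℕ)),
      ∃ (t' : {t : Cond Ω // t ≤ q1}) (x : Set ℕ) (α : Ω), t'.1 ≤ t.1 ∧ x ∉ F ∧
        I.mem x t'.1 ∧ Phi t'.1 x α := by
    intro t F
    obtain ⟨r, hr, x, hx⟩ := hI F t.1 (t.2.trans hq1)
    obtain ⟨r', hr', α, hα⟩ := phi_dense hc hu r x.1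
    exact ⟨⟨r', (hr'.trans hr).trans t.2⟩, x.1, α, hr'.trans hr, x.2, I.mono _ _ _ hr' hx, hα⟩
  choose nt nx nα h1 h2 h3 h4 using step
  let st : ℕ → {t : Cond Ω // t ≤ q1} × Finset (Set ℕ) := fun n =>
    Nat.rec (⟨q1, le_rfl⟩, ∅) (fun _ s => (nt s.1 s.2, insert (nx s.1 s.2) s.2)) n
  have st_succ : ∀ n, st (n + 1) =
      (nt (st n).1 (st n).2, insert (nx (st n).1 (st n).2) (st n).2) := fun n => rfl
  set t : ℕ → Cond Ω := fun n => (st n).1.1 with ht
  set x : ℕ → Set ℕ := fun n => nx (st n).1 (st n).2 with hx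
  set α : ℕ → Ω := fun n => nα (st n).1 (st n).2 with hα
  have ht1 : ∀ n, t (n + 1) ≤ t n := by
    intro n
    change (st (n + 1)).1.1 ≤ _
    rw [st_succ]
    exact h1 _ _
  have hxn : ∀ n, x n ∉ (st n).2 := fun n => h2 _ _
  have hxs : ∀ n, x n ∈ (st (n + 1)).2 := by
    intro n
    rw [st_succ]
    exact Finset.mem_insert_self _ _
  have hsub : ∀ m n, m ≤ n → (st m).2 ⊆ (st n).2 := by
    intro m n hmn
    induction n, hmn using Nat.le_induction with
    | base => exact Finset.Subset.refl _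
    | succ n _ ih =>
      refine ih.trans ?_
      rw [st_succ]
      exact Finset.subset_insert _ _
  have hxinj : Function.Injective x := by
    have key : ∀ m n, m < n → x m ≠ x n := by
      intro m n hmn h
      apply hxn n
      rw [← h]
      exact hsub (m + 1) n hmn (hxs m)
    intro m n h
    rcases lt_trichotomy m n with h5 | h5 | h5
    · exact absurd h (key m n h5)
    · exact h5
    · exact absurd h.symm (key n m h5)
  have hImem : ∀ n, I.mem (x n) (t (n + 1)) := by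
    intro n
    change I.mem _ (st (n + 1)).1.1
    rw [st_succ]
    exact h3 _ _
  have hPhi : ∀ n, Phi (t (n + 1)) (x n) (α n) := by
    intro n
    change Phi (st (n + 1)).1.1 _ _
    rw [st_succ]
    exact h4 _ _
  obtain ⟨t', ht', -⟩ := exists_inf hc hu t ht1
  have hPhi' : ∀ n, Phi t' (x n) (α n) := fun n => phi_mono (ht' (n + 1)) (hPhi n)
  have hαinj : Function.Injective α := by
    intro m n h
    have h5 := hPhi' m
    rw [h] at h5
    exact hxinj (phi_inj h5 (hPhi' n))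
  obtain ⟨δ, J, hJr, hlim, hJ, hJc⟩ := TT.exists_lim_of_infinite hc hu (range α)
    (infinite_range_of_injective hαinj)
  have hδ : δ ≤ t'.len := by
    by_contra hcon
    obtain ⟨β, hβ, hβ2⟩ := hJc _ (not_le.1 hcon)
    obtain ⟨n, rfl⟩ := hJr hβ
    exact absurd (hPhi' n).1 (not_lt.2 hβ2.le)
  obtain ⟨t'', ht'', hlen, -⟩ := exists_ext hc hu t' true (fun _ => ∅) (fun _ _ => ∅)
  have hδ2 : δ < t''.len := lt_of_le_of_lt hδ hlen
  have ht1q : t' ≤ q1 := ht' 0
  obtain ⟨s, hs, E, hE, hEy⟩ := hInter t'' (ht''.trans ht1q)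
  have hst : s ≤ t' := hs.trans ht''
  have hsub2 : ∀ n, E ⊆ AA s true (α n) ×ˢ AA s false (α n) := by
    intro n
    by_contra hcon
    refine hEy (x n) ⟨_, hcon⟩ s le_rfl ⟨?_, rr_mem (phi_mono hst (hPhi' n))⟩
    exact I.mono _ _ _ (hst.trans (ht' (n + 1))) (hImem n)
  obtain ⟨s', hs', N, hN, hNE⟩ := hE s le_rfl
  have hne : ∀ (i : Bool) (A : Set ℕ) (r : Cond Ω), (UU Ω i).mem A r → A.Nonempty := by
    intro i A r h
    obtain ⟨r', _, h5⟩ := h r le_rfl
    by_contra hcon
    rw [not_nonempty_iff_eq_empty] at hcon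
    rw [hcon] at h5
    exact not_pos_finite finite_empty h5
  have hlt : ∀ n, α n < s.len := fun n => (phi_mono hst (hPhi' n)).1
  have hδs : δ < s.len := lt_of_lt_of_le hδ2 hs.1
  have hδs' : δ < s'.len := lt_of_lt_of_le hδs hs'.1
  cases hb : (s'.d δ).b with
  | true =>
    obtain ⟨s'', hs'', hpos⟩ := hN s' le_rfl
    refine kill s'' true δ (lt_of_lt_of_le hδs' hs''.1) hlim ?_ J hJ hJc N ?_ hpos
    · rw [hs''.2 δ hδs', hb]
    · intro β hβ k hk
      obtain ⟨n, rfl⟩ := hJr hβ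
      obtain ⟨m, hm⟩ := hne _ _ _ (hNE ⟨k, hk⟩)
      have h5 := (hsub2 n hm).1
      rw [aa_eq (hs''.trans hs') true (hlt n)]
      exact h5
  | false =>
    obtain ⟨k, hk⟩ := hne _ _ _ hN
    obtain ⟨s'', hs'', hpos⟩ := hNE ⟨k, hk⟩ s' le_rfl
    refine kill s'' false δ (lt_of_lt_of_le hδs' hs''.1) hlim ?_ J hJ hJc _ ?_ hpos
    · rw [hs''.2 δ hδs', hb]
    · intro β hβ m hm
      obtain ⟨n, rfl⟩ := hJr hβ
      have h5 := (hsub2 n hm).2
      rw [aa_eq (hs''.trans hs') false (hlt n)]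
      exact h5

end TTF
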