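import Pool.Agent.TTF.NTop
import Pool.Agent.TTF.TopP
import Pool.Agent.TTF.Nnr

/-! TTF / Main: assembly. -/

set_option autoImplicit false

open Set Filter

namespace TTF

universe u

theorem main_gen {Ω : Type u} [LinearOrder Ω] [WellFoundedLT Ω] (hc : ∀ a : Ω, (Iio a).Countable)
    (hu : ¬ (univ : Set Ω).Countable) (p : Cond Ω) :
    fnot (Q1 (Cond Ω)) p ∧ fnot (Q2 (Cond Ω)) p := by
  constructor
  · intro q _ h
    have h1 := h (UU Ω true) (fun _ => UU Ω false) q le_rfl
      ⟨⟨ult hc hu true q, fun _ => ult hc hu false q⟩, not_top hc hu true q, fun _ => not_top hc hu false q⟩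
    exact h1 q le_rfl (top_prod hc hu q)
  · intro q _ h
    have h1 := h (UU Ω true) (UU Ω false) q le_rfl
      ⟨⟨ult hc hu true q, ult hc hu false q⟩, not_top hc hu true q, not_top hc hu false q⟩
    exact h1 q le_rfl (top_prod hc hu q)

end TTF
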