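import Pool.Agent.TTF.Seal
import Pool.Agent.TTF.UltN

/-! TTF / NTop: the ultrafilters are forced not to be Tukey-top.

PROOF. Let `q ≤ p` and `Top (UU Ω i) q`: there are `r ≤ q` and `R` with `IsFun (UU Ω i) R r` and, for all names `I`,
`fimp (Infin I) (fnot (InterMem _ R I)) r`. `exists_seal` at `r` gives `r' ≤ r`, `x, y, K, E`. Let `I` be the constant name
of the ground model set `{x n | n ∈ K}` (`mem z := fun _ => z ∈ ...`); it is infinite (`x` injective, `K` infinite), so
`Infin I r'`. `InterMem (UU Ω i) R I r'` holds: below any condition take `E` (`mem_of_pos`, `pos_mono`); if `z ∈ I`,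
`R.mem (z, w) t` with `¬ E ⊆ w`, `t ≤ r'`, then `z = x n`, `n ∈ K`, `R.mem (x n, y n) t`, so `w = y n` (single valued), but
`E ⊆ y n`. Contradiction. -/

set_option autoImplicit false

open Set Filter

namespace TTF

universe u

variable {Ω : Type u} [LinearOrder Ω]

theorem not_top [WellFoundedLT Ω] (hc : ∀ a : Ω, (Iio a).Countable) (hu : ¬ (univ : Set Ω).Countable)
    (i : Bool) (p : Cond Ω) : fnot (Top (UU Ω i)) p := by
  intro q _ hq
  obtain ⟨r, hr, R, hR, hI⟩ := hq q le_rfl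
  obtain ⟨r', hr', x, y, K, E, hx, hK, hE, hxy⟩ := exists_seal hc hu i R r hR
  set I : SetName (Cond Ω) (Set ℕ) :=
    { mem := fun z _ => ∃ n ∈ K, z = x n
      mono := fun _ _ _ _ h => h
      dense := fun z p h => by
        obtain ⟨r, -, h⟩ := h p le_rfl
        exact h } with hIdef
  have hinf : Infin I r' := by
    intro F q hq
    obtain ⟨n, hn, hnF⟩ : ∃ n ∈ K, x n ∉ F := by
      by_contra hcon
      push Not at hcon
      exact (hK.image hx.injOn) (F.finite_toSet.subset (by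
        rintro _ ⟨n, hn, rfl⟩
        exact hcon n hn))
    exact ⟨q, le_rfl, ⟨x n, hnF⟩, n, hn, rfl⟩
  refine hI I r' hr' hinf r' le_rfl ?_
  intro s hs
  refine ⟨s, le_rfl, E, mem_of_pos (pos_mono hs hE), ?_⟩
  rintro z w t ht ⟨⟨n, hn, hz⟩, hm⟩
  subst hz
  by_cases hyw : y n = w
  · exact w.2 (hyw ▸ (hxy n hn).2)
  · exact hR.2.1 (x n) (y n) ⟨w, hyw⟩ t (ht.trans (hs.trans hr'))
      ⟨R.mono _ _ _ (ht.trans hs) (hxy n hn).1, hm⟩

end TTF
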