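import Pool.Agent.TTF.Ext

/-! TTF / PhiD: the name of the injection from the reals into `ω₁`.

PROOF. `phi_mono`: the data below `p.len` are the same. `phi_unique`, `phi_inj`: `α` is the least stage with
`y = fun _ => x`; and `(p.d α).y = fun _ => x = fun _ => x'` gives `x = x'`. `phi_dense`: `exists_ext` with
`y = fun _ => x` gives `q ≤ p` with some stage `< q.len` having `y = fun _ => x`; take the least such stage
(well-foundedness). -/

set_option autoImplicit false

open Set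

namespace TTF

universe u

variable {Ω : Type u} [LinearOrder Ω]

theorem phi_mono {p q : Cond Ω} (h : q ≤ p) {x : Set ℕ} {α : Ω} (hα : Phi p x α) : Phi q x α := by
  obtain ⟨h1, h2, h3⟩ := hα
  refine ⟨lt_of_lt_of_le h1 h.1, ?_, ?_⟩
  · rw [h.2 α h1]
    exact h2
  · intro β hβ
    rw [h.2 β (hβ.trans h1)]
    exact h3 β hβ

theorem phi_unique {p : Cond Ω} {x : Set ℕ} {α β : Ω} (hα : Phi p x α) (hβ : Phi p x β) : α = β := by
  obtain ⟨_, h2, h3⟩ := hα
  obtain ⟨_, k2, k3⟩ := hβ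
  rcases lt_trichotomy α β with h | h | h
  · exact absurd h2 (k3 α h)
  · exact h
  · exact absurd k2 (h3 β h)

theorem phi_inj {p : Cond Ω} {x x' : Set ℕ} {α : Ω} (hx : Phi p x α) (hx' : Phi p x' α) : x = x' := by
  have h := hx.2.1.symm.trans hx'.2.1
  exact congrFun h 0

theorem phi_dense [WellFoundedLT Ω] (hc : ∀ a : Ω, (Iio a).Countable) (hu : ¬ (univ : Set Ω).Countable)
    (p : Cond Ω) (x : Set ℕ) : ∃ q ≤ p, ∃ α, Phi q x α := by
  obtain ⟨q, hq, hlt, _, _, hy, _⟩ := exists_ext hc hu p false (fun _ => x) (fun _ _ => ∅)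
  have hwf : WellFounded ((· < ·) : Ω → Ω → Prop) := IsWellFounded.wf
  have hne : {α : Ω | (q.d α).y = fun _ => x}.Nonempty := ⟨p.len, hy⟩
  refine ⟨q, hq, hwf.min _ hne, ?_, hwf.min_mem _ hne, ?_⟩
  · refine lt_of_le_of_lt ?_ hlt
    exact not_lt.1 (hwf.not_lt_min _ hy)
  · intro β hβ h
    exact hwf.not_lt_min {α : Ω | (q.d α).y = fun _ => x} h hβ

end TTF
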