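import Pool.Agent.TTF.Cond

/-! TTF / Pos: elementary facts on conditions.

PROOF. `gg_eq`: definition of `≤`. `goodat_congr`: `GoodAt d i α` only uses `(d α).b`, `(d α).y`, `(d α).G` and
`(d β).g i` for `β ≤ α`; field by field as in `TT.Good.congr` (the set `S` is used only at `α`). `big_up`: as
`TT.Big.up` (its proof uses only `Good` at `γ'`). `big_ne`: as `TT.not_big_empty`. `pos_mono`: the stages below `p.len` are
the same. `pos_inter`: go to the larger stage (`big_up`), `TT.Big.inter`, `pre (A ∩ B) = pre A ∩ pre B`.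
`not_pos_finite`: `pre A` is finite, so for all large `j` its column `{l | (j, l) ∈ pre A}` is empty; take such `j` in the
infinite set `u`: `D j` is infinite and `AS (D j) ∅`, impossible. -/

set_option autoImplicit false

open Set

namespace TTF

universe u

variable {Ω : Type u} [LinearOrder Ω]

theorem gg_eq {p q : Cond Ω} (h : q ≤ p) (i : Bool) {β : Ω} (hβ : β < p.len) : q.gg i β = p.gg i β := by
  unfold Cond.gg
  rw [h.2 β hβ]

theorem goodat_congr {d d' : Ω → Dat Ω} {i : Bool} {α : Ω} (h : ∀ β ≤ α, d β = d' β) (hd : GoodAt d i α) :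
    GoodAt d' i α := by
  have hα := h α le_rfl
  unfold GoodAt at hd ⊢
  refine ⟨?_, ?_, ?_, ?_, ?_, ?_, ?_⟩
  · rw [← hα]; exact hd.uinf
  · rw [← hα]; exact hd.Dinf
  · intro β hβ
    have h1 := hd.below β hβ
    simp only [h β hβ.le, hα] at h1
    exact h1
  · have h1 := hd.dec
    simp only [hα] at h1
    exact h1
  · intro h1 h2 j
    have h3 : α ∈ {β | (d β).b = i} := by
      have h4 : (d' α).b = i := h2
      rw [← hα] at h4
      exact h4
    obtain ⟨η, hη, h5⟩ := hd.kill h1 h3 j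
    refine ⟨η, hη, fun β hβ hηβ => ?_⟩
    have h6 := h5 β hβ hηβ
    simp only [h β hβ.le, hα] at h6
    exact h6
  · intro h1 h2 a k Z ζ hζ
    have h3 : α ∉ {β | (d β).b = i} := by
      intro h4
      apply h2
      have h5 : (d α).b = i := h4
      rw [hα] at h5
      exact h5
    rcases hd.sealing h1 h3 a k Z ζ hζ with h4 | ⟨B, F, hB, hF, h4, h5⟩
    · left
      simp only [hα] at h4
      exact h4
    · right
      have hcell : ∀ j, TT.cell (fun β => ((d β).g i).D) ((d α).G) B F j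
          = TT.cell (fun β => ((d' β).g i).D) ((d' α).G) B F j := fun j => by
        rw [← hα]
        exact TT.cell_congr (fun x hx => by simp only [h x.2 (hB x hx).le]) j
      refine ⟨B, F, hB, hF, fun j hj => ?_, fun ξ h6 h7 h8 => ?_⟩
      · have h9 := h4 j hj
        rw [← hcell, ← hα]
        exact h9
      · rw [← hα] at h8
        have h9 := h5 ξ h6 h7 h8
        intro h10
        apply h9
        intro j hj
        have h11 := h10 j hj
        rw [← hcell, ← hα] at h11
        exact h11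
  · intro j
    refine ⟨fun γ hγ F hF => ?_, ?_⟩
    · have h1 := (hd.splits j).1 γ hγ F hF
      have h2 : (⋃ β ∈ F, ((d β).g i).A j) = ⋃ β ∈ F, ((d' β).g i).A j :=
        iUnion₂_congr fun β hβ => by rw [h β (hF β hβ).2.le]
      simp only [h2, h γ hγ.le, hα] at h1
      exact h1
    · have h1 := (hd.splits j).2
      rw [hα] at h1
      exact h1

theorem big_up (p : Cond Ω) (i : Bool) {γ γ' : Ω} (h : γ ≤ γ') (h' : γ' < p.len) {E : Set (ℕ × ℕ)}
    (hE : TT.Big (p.gg i) γ E) : TT.Big (p.gg i) γ' E := by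
  rcases h.lt_or_eq with h | h
  · have hb := (p.good γ' h' i).below γ h
    filter_upwards [hE, hb.2, TT.eventually_mem_of_AS hb.1] with j h1 h2 h3 hju
    exact (h2.mono_right inter_subset_left).trans (h1 (h3 hju))
  · rwa [← h]

theorem pos_mono {p q : Cond Ω} (h : q ≤ p) {i : Bool} {A : Set ℕ} (hA : Pos i A p) : Pos i A q := by
  obtain ⟨γ, hγ, h1⟩ := hA
  refine ⟨γ, lt_of_lt_of_le hγ h.1, ?_⟩
  unfold TT.Big at h1 ⊢
  rw [gg_eq h i hγ]
  exact h1

theorem pos_superset {p : Cond Ω} {i : Bool} {A B : Set ℕ} (hAB : A ⊆ B) (hA : Pos i A p) : Pos i B p := by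
  obtain ⟨γ, hγ, h1⟩ := hA
  exact ⟨γ, hγ, h1.mono fun x hx => hAB hx⟩

theorem pos_inter {p : Cond Ω} {i : Bool} {A B : Set ℕ} (hA : Pos i A p) (hB : Pos i B p) : Pos i (A ∩ B) p := by
  obtain ⟨γ, hγ, h1⟩ := hA
  obtain ⟨γ', hγ', h2⟩ := hB
  have h3 : pre (A ∩ B) = pre A ∩ pre B := rfl
  rcases le_total γ γ' with h | h
  · refine ⟨γ', hγ', ?_⟩
    rw [h3]
    exact (big_up p i h hγ' h1).inter h2
  · refine ⟨γ, hγ, ?_⟩
    rw [h3]
    exact h1.inter (big_up p i h hγ h2)

theorem not_pos_finite {p : Cond Ω} {i : Bool} {A : Set ℕ} (hA : A.Finite) : ¬ Pos i A p := by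
  rintro ⟨γ, hγ, h1⟩
  have hg := p.good γ hγ i
  obtain ⟨b, hb⟩ := hA.bddAbove
  obtain ⟨c, hc⟩ := Filter.eventually_atTop.1 h1
  obtain ⟨j, hj, hcj⟩ := hg.uinf.exists_gt (max b c)
  have h2 := hc j (le_trans (le_max_right _ _) hcj.le) hj
  have h3 := h2.infinite (hg.Dinf j)
  apply h3
  have h4 : {l : ℕ | (j, l) ∈ pre A} = ∅ := by
    refine Set.eq_empty_iff_forall_notMem.2 fun l hl => ?_
    have h5 : Nat.pair j l ∈ A := hl
    have h6 := hb h5
    have h7 : j ≤ Nat.pair j l := Nat.left_le_pair j l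
    have h8 : b < j := lt_of_le_of_lt (le_max_left _ _) hcj
    omega
  rw [h4]
  exact Set.finite_empty

end TTF
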