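import Mathlib

/-!
# TTF / RO: the complete Boolean algebra of regular open sets of conditions

`RO P`: sets `a` of conditions with `p ∈ a` iff densely below `p` there are elements of `a`. `p ∈ a` is read `p` forces
`a`.
-/

set_option autoImplicit false

open Set

namespace TTF

universe u v

/-- Regular open sets of conditions. -/
structure RO (P : Type u) [Preorder P] where
  car : Set P
  reg : ∀ p, (∀ q ≤ p, ∃ r ≤ q, r ∈ car) ↔ p ∈ car

namespace RO

variable {P : Type u} [Preorder P]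

instance : Membership P (RO P) := ⟨fun a p => p ∈ a.car⟩

theorem mem_def {a : RO P} {p : P} : p ∈ a ↔ p ∈ a.car := Iff.rfl

theorem mono {a : RO P} {p q : P} (h : p ∈ a) (hq : q ≤ p) : q ∈ a :=
  (a.reg q).1 fun r hr => (a.reg p).2 h r (hr.trans hq)

theorem dense {a : RO P} {p : P} (h : ∀ q ≤ p, ∃ r ≤ q, r ∈ a) : p ∈ a := (a.reg p).1 h

theorem ext' {a b : RO P} (h : ∀ p, p ∈ a ↔ p ∈ b) : a = b := by
  cases a
  cases b
  congr
  ext p
  exact h p

/-- The regular open set of the conditions below which a set closed under stronger conditions is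
dense. -/
def cl (s : P → Prop) (_hs : ∀ p q, q ≤ p → s p → s q) : RO P where
  car := {p | ∀ q ≤ p, ∃ r ≤ q, s r}
  reg := fun p => by
    constructor
    · intro h q hq
      obtain ⟨r, hr, h1⟩ := h q hq
      obtain ⟨t, ht, h2⟩ := h1 r le_rfl
      exact ⟨t, ht.trans hr, h2⟩
    · intro h q hq
      exact ⟨q, le_rfl, fun r hr => h r (hr.trans hq)⟩

theorem mem_cl {s : P → Prop} {hs : ∀ p q, q ≤ p → s p → s q} {p : P} :
    p ∈ cl s hs ↔ ∀ q ≤ p, ∃ r ≤ q, s r := Iff.rfl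

theorem mem_cl_of {s : P → Prop} {hs : ∀ p q, q ≤ p → s p → s q} {p : P} (h : s p) :
    p ∈ cl s hs := fun q hq => ⟨q, le_rfl, hs p q hq h⟩

instance : PartialOrder (RO P) where
  le a b := ∀ p, p ∈ a → p ∈ b
  le_refl _ _ h := h
  le_trans _ _ _ h1 h2 p h := h2 p (h1 p h)
  le_antisymm _ _ h1 h2 := ext' fun p => ⟨h1 p, h2 p⟩

theorem le_def {a b : RO P} : a ≤ b ↔ ∀ p, p ∈ a → p ∈ b := Iff.rfl

/-- intersection of a family -/
def inter (s : Set (RO P)) : RO P where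
  car := {p | ∀ a ∈ s, p ∈ a}
  reg := fun p => by
    constructor
    · intro h a ha
      refine dense fun q hq => ?_
      obtain ⟨r, hr, h1⟩ := h q hq
      exact ⟨r, hr, h1 a ha⟩
    · intro h q hq
      exact ⟨q, le_rfl, fun a ha => mono (h a ha) hq⟩

/-- union of a family -/
def union (s : Set (RO P)) : RO P :=
  cl (fun p => ∃ a ∈ s, p ∈ a) fun _ _ hq ⟨a, ha, hp⟩ => ⟨a, ha, mono hp hq⟩

/-- complement -/
def neg (a : RO P) : RO P where
  car := {p | ∀ q ≤ p, q ∉ a}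
  reg := fun p => by
    constructor
    · intro h q hq hqa
      obtain ⟨r, hr, h1⟩ := h q hq
      exact h1 r le_rfl (mono hqa hr)
    · intro h q hq
      exact ⟨q, le_rfl, fun r hr => h r (hr.trans hq)⟩

/-- implication -/
def imp (a b : RO P) : RO P where
  car := {p | ∀ q ≤ p, q ∈ a → q ∈ b}
  reg := fun p => by
    constructor
    · intro h q hq hqa
      refine dense fun r hr => ?_
      obtain ⟨t, ht, h1⟩ := h r (hr.trans hq)
      exact ⟨t, ht, h1 t le_rfl (mono hqa (ht.trans hr))⟩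
    · intro h q hq
      exact ⟨q, le_rfl, fun r hr => h r (hr.trans hq)⟩

instance : CompleteBooleanAlgebra (RO P) where
  inf a b := inter {a, b}
  sup a b := union {a, b}
  top := inter ∅
  bot := union ∅
  sSup := union
  sInf := inter
  compl := neg
  himp := imp
  sdiff a b := inter {a, neg b}
  inf_le_left a b p h := h a (Or.inl rfl)
  inf_le_right a b p h := h b (Or.inr rfl)
  le_inf a b c h1 h2 p hp := by
    rintro d (rfl | hd)
    · exact h1 p hp
    · rw [mem_singleton_iff.1 hd]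
      exact h2 p hp
  le_sup_left a b p h := mem_cl_of ⟨a, Or.inl rfl, h⟩
  le_sup_right a b p h := mem_cl_of ⟨b, Or.inr rfl, h⟩
  sup_le a b c h1 h2 p hp := by
    refine dense fun q hq => ?_
    obtain ⟨r, hr, d, hd, h⟩ := hp q hq
    rcases hd with rfl | hd
    · exact ⟨r, hr, h1 r h⟩
    · rw [mem_singleton_iff.1 hd] at h
      exact ⟨r, hr, h2 r h⟩
  le_top a p _ := fun b hb => hb.elim
  bot_le a p hp := by
    obtain ⟨_, _, b, hb, _⟩ := hp p le_rfl
    exact hb.elim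
  isLUB_sSup s := by
    refine ⟨fun a ha p hp => mem_cl_of ⟨a, ha, hp⟩, fun b hb p hp => ?_⟩
    refine dense fun q hq => ?_
    obtain ⟨r, hr, a, ha, h⟩ := hp q hq
    exact ⟨r, hr, hb ha r h⟩
  isGLB_sInf s := ⟨fun a ha p hp => hp a ha, fun b hb p hp a ha => hb ha p hp⟩
  le_sup_inf a b c p hp := by
    intro q hq
    obtain ⟨r, hr, d, hd, h⟩ := hp (union {a, b}) (Or.inl rfl) q hq
    rcases hd with rfl | hd
    · exact ⟨r, hr, d, Or.inl rfl, h⟩
    · rw [mem_singleton_iff.1 hd] at h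
      obtain ⟨t, ht, e, he, h'⟩ := hp (union {a, c}) (Or.inr rfl) r (hr.trans hq)
      rcases he with rfl | he
      · exact ⟨t, ht.trans hr, e, Or.inl rfl, h'⟩
      · rw [mem_singleton_iff.1 he] at h'
        refine ⟨t, ht.trans hr, inter {b, c}, Or.inr rfl, ?_⟩
        rintro x (rfl | hx)
        · exact mono h ht
        · rw [mem_singleton_iff.1 hx]
          exact h'
  inf_compl_le_bot a p hp := by
    exact absurd (hp a (Or.inl rfl)) (hp (neg a) (Or.inr rfl) p le_rfl)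
  top_le_sup_compl a p _ := by
    intro q _
    by_cases h : ∃ r ≤ q, r ∈ a
    · obtain ⟨r, hr, h1⟩ := h
      exact ⟨r, hr, a, Or.inl rfl, h1⟩
    · push Not at h
      exact ⟨q, le_rfl, neg a, Or.inr rfl, fun r hr => h r hr⟩
  sdiff_eq _ _ := rfl
  himp_eq a b := by
    apply ext'
    intro p
    constructor
    · intro h q hq
      by_cases h1 : ∃ r ≤ q, r ∈ a
      · obtain ⟨r, hr, h2⟩ := h1
        exact ⟨r, hr, b, Or.inl rfl, h r (hr.trans hq) h2⟩
      · push Not at h1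
        exact ⟨q, le_rfl, neg a, Or.inr rfl, fun r hr => h1 r hr⟩
    · intro h q hq hqa
      refine dense fun r hr => ?_
      obtain ⟨t, ht, d, hd, h1⟩ := h r (hr.trans hq)
      rcases hd with rfl | hd
      · exact ⟨t, ht, h1⟩
      · rw [mem_singleton_iff.1 hd] at h1
        exact absurd (mono hqa (ht.trans hr)) (h1 t le_rfl)

/-! ### The forcing relation of the operations -/

theorem mem_inf {a b : RO P} {p : P} : p ∈ a ⊓ b ↔ p ∈ a ∧ p ∈ b := by
  constructor
  · intro h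
    exact ⟨h a (Or.inl rfl), h b (Or.inr rfl)⟩
  · rintro ⟨h1, h2⟩ c (rfl | hc)
    · exact h1
    · rw [mem_singleton_iff.1 hc]
      exact h2

theorem mem_sup {a b : RO P} {p : P} : p ∈ a ⊔ b ↔ ∀ q ≤ p, ∃ r ≤ q, r ∈ a ∨ r ∈ b := by
  constructor
  · intro h q hq
    obtain ⟨r, hr, c, hc, h1⟩ := h q hq
    rcases hc with rfl | hc
    · exact ⟨r, hr, Or.inl h1⟩
    · rw [mem_singleton_iff.1 hc] at h1
      exact ⟨r, hr, Or.inr h1⟩
  · intro h q hq
    obtain ⟨r, hr, h1 | h1⟩ := h q hq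
    · exact ⟨r, hr, a, Or.inl rfl, h1⟩
    · exact ⟨r, hr, b, Or.inr rfl, h1⟩

theorem mem_compl {a : RO P} {p : P} : p ∈ aᶜ ↔ ∀ q ≤ p, q ∉ a := Iff.rfl

theorem mem_himp {a b : RO P} {p : P} : p ∈ a ⇨ b ↔ ∀ q ≤ p, q ∈ a → q ∈ b := Iff.rfl

theorem mem_top {p : P} : p ∈ (⊤ : RO P) := fun _ h => h.elim

theorem not_mem_bot {p : P} : p ∉ (⊥ : RO P) := fun h => by
  obtain ⟨_, _, b, hb, _⟩ := h p le_rfl
  exact hb.elim

theorem mem_iInf {ι : Sort v} {f : ι → RO P} {p : P} : p ∈ ⨅ i, f i ↔ ∀ i, p ∈ f i := by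
  constructor
  · intro h i
    exact h (f i) ⟨i, rfl⟩
  · rintro h _ ⟨i, rfl⟩
    exact h i

theorem mem_iSup {ι : Sort v} {f : ι → RO P} {p : P} :
    p ∈ ⨆ i, f i ↔ ∀ q ≤ p, ∃ r ≤ q, ∃ i, r ∈ f i := by
  constructor
  · intro h q hq
    obtain ⟨r, hr, _, ⟨i, rfl⟩, h1⟩ := h q hq
    exact ⟨r, hr, i, h1⟩
  · intro h q hq
    obtain ⟨r, hr, i, h1⟩ := h q hq
    exact ⟨r, hr, f i, ⟨i, rfl⟩, h1⟩

theorem eq_top {a : RO P} (h : ∀ p, p ∈ a) : a = ⊤ := ext' fun p => ⟨fun _ => mem_top, fun _ => h p⟩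

theorem eq_bot {a : RO P} (h : ∀ p, p ∉ a) : a = ⊥ :=
  ext' fun p => ⟨fun h1 => absurd h1 (h p), fun h1 => absurd h1 not_mem_bot⟩

instance [Nonempty P] : Nontrivial (RO P) := by
  obtain ⟨p⟩ := ‹Nonempty P›
  exact ⟨⊤, ⊥, fun h => not_mem_bot (h ▸ mem_top : p ∈ (⊥ : RO P))⟩

end RO

end TTF
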