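import Pool.Agent.TTF.Seq
import Pool.Agent.TTF.Inf

/-! TTF / Refl: the sealing stage.

PROOF. Take the sequence of `exists_seq`, `t` = its limit (`exists_inf`), `δ = t.len`: the `(q n).len` are strictly
increasing and cofinal in `δ`, so `δ` is a limit and `(q n).len < δ`. Extend `t` by the stage `δ` with `b = !i` and `G = C`
(`exists_ext`), giving `t1`. Choose a real `xs` different from all `x n` (the reals are uncountable), `r1 ≤ t1` and `ys`
with `Dcd i R r1 xs ys` (`dcd_dense`); `Big (r1.gg i) γ0 (pre ys)`, `γ0 < r1.len`; extend once more to `r` so that there is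
a stage `γ` with `max γ0 δ < γ < r.len` (`γ = r1.len`), `Big` at `γ` by `big_up`. `m0` from `Big` at `γ` and `below` at
`γ` for `δ`: for `j ≥ m0`, `j ∈ u_γ`: `AS (D_γ j) (col ys j)`, `AS (D_γ j) (D_δ j)` (`h5`, `h6`).
`h7` (Step 4 of `TT.sealing_main`): given `k, N`; `a` = the `j < k` with `j ∈ u_γ`, `m0 ≤ j`; `Z` = the pairs
`(j, l) ∈ range k × range k` with `l ∈ col ys j`; `ζ = (q N).len < δ`. The field `sealing` at `δ` (`(r.d δ).b = !i ≠ i`,
`(r.d δ).G = C`) gives either `ξ` with `ζ < ξ < δ`, `Pat (C ξ) k Z`, `AS (D_δ j) (C ξ j)` for `j ∈ a`; then `ξ` lies in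
some `[(q n).len, (q (n+1)).len)` with `n ≥ N` and `C ξ = col (y n)`: done; or `B, F` below `δ` with
`AS (D_δ j) (cell j)` for `j ∈ a` and no `ξ` in `(ζ, δ)` with `Pat (C ξ) k Z` and `cell j ∩ C ξ j` infinite for all
`j ∈ a`. In the second case all ordinals of `B, F` are below some `(q m).len`; apply the last property of `exists_seq`
with `N + 1`: the hypothesis holds for `r`, `xs`, `ys` (`D_γ j` is almost contained in the cell and in `col ys j`, and is
infinite; the cell computed in `r` and with `C`), so `Test i (q (n+1)) C ... (y n)`, and `ξ = (q n).len` contradicts the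
alternative (`C ξ = col (y n)`, `ζ < ξ < δ`). -/

set_option autoImplicit false

open Set Filter

namespace TTF

universe u

variable {Ω : Type u} [LinearOrder Ω]

theorem reflect [WellFoundedLT Ω] (hc : ∀ a : Ω, (Iio a).Countable) (hu : ¬ (univ : Set Ω).Countable)
    (i : Bool) (R : SetName (Cond Ω) (Set ℕ × Set ℕ)) (p : Cond Ω) (hR : IsFun (UU Ω i) R p) :
    ∃ (r : Cond Ω) (x y : ℕ → Set ℕ) (ys : Set ℕ) (δ γ : Ω) (m0 : ℕ), r ≤ p ∧ δ < γ ∧ γ < r.len ∧
      Function.Injective x ∧ (∀ n, R.mem (x n, y n) r) ∧ (∀ n, TT.Big (r.gg i) γ (pre (y n))) ∧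
      (∀ j ≥ m0, j ∈ (r.gg i γ).u → TT.AS ((r.gg i γ).D j) (col ys j) ∧
        TT.AS ((r.gg i γ).D j) ((r.gg i δ).D j)) ∧
      ∀ k N, ∃ n ≥ N, (∀ j < k, ∀ l < k, (l ∈ col (y n) j ↔ l ∈ col ys j)) ∧
        ∀ j < k, j ∈ (r.gg i γ).u → m0 ≤ j → TT.AS ((r.gg i δ).D j) (col (y n) j) := by
  classical
  obtain ⟨q, x, y, C, hq0, hqd, hql, hxi, hdcd, hC, htask⟩ := exists_seq hc hu i R p hR
  obtain ⟨t, htq, htl⟩ := exists_inf hc hu q hqd
  have hqm : ∀ m n, m ≤ n → q n ≤ q m := fun m n hmn => by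
    induction n, hmn using Nat.le_induction with
    | base => exact le_rfl
    | succ n _ ih => exact (hqd n).trans ih
  have hlm : ∀ m n, m ≤ n → (q m).len ≤ (q n).len := fun m n hmn => (hqm m n hmn).1
  have hlen : ∀ n, (q n).len < t.len := fun n => lt_of_lt_of_le (hql n) (htq (n + 1)).1
  have hlim : TT.IsLim t.len := by
    refine ⟨⟨(q 0).len, hlen 0⟩, fun β hβ => ?_⟩
    obtain ⟨n, hn⟩ := htl β hβ
    exact ⟨(q n).len, hn, hlen n⟩
  obtain ⟨t1, ht1, ht1l, -, hb, -, hG⟩ := exists_ext hc hu t (!i) (fun _ => univ) C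
  obtain ⟨xs, hxs⟩ : ∃ xs : Set ℕ, ∀ n, xs ≠ x n := by
    by_contra hcon
    push Not at hcon
    refine Function.cantor_surjective x fun s => ?_
    obtain ⟨n, hn⟩ := hcon s
    exact ⟨n, hn.symm⟩
  have htp : t ≤ p := by
    rw [← hq0]
    exact htq 0
  obtain ⟨r1, hr1, ys, hys⟩ := dcd_dense hR t1 (ht1.trans htp) xs
  obtain ⟨r, hr, hrl, hrb, -, -, -⟩ := exists_ext hc hu r1 true (fun _ => univ) (fun _ _ => univ)
  have hδ1 : t.len < r1.len := lt_of_lt_of_le ht1l hr1.1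
  have hδr : t.len < r.len := hδ1.trans hrl
  have hrt : r ≤ t := hr.trans (hr1.trans ht1)
  have hrq : ∀ n, r ≤ q n := fun n => hrt.trans (htq n)
  have hbig : ∀ A : Set ℕ, Pos i A r → TT.Big (r.gg i) r1.len (pre A) := by
    rintro A ⟨γ0, h0, h1⟩
    exact big_up r i (hrb γ0 h0) hrl h1
  have hdδ : r.d t.len = t1.d t.len := by
    rw [hr.2 _ hδ1, hr1.2 _ ht1l]
  have hGδ : (r.d t.len).G = C := by rw [hdδ, hG]
  have hbδ : (r.d t.len).b ≠ i := by
    rw [hdδ, hb]
    cases i <;> simp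
  have hgγ := r.good r1.len hrl i
  have hgδ := r.good t.len hδr i
  have hys' : Dcd i R r xs ys := dcd_mono hr hys
  have hbys := hbig ys hys'.2
  have hbel := hgγ.below t.len hδ1
  obtain ⟨m0, hm0⟩ := eventually_atTop.1 (hbys.and hbel.2)
  have h5 : ∀ j ≥ m0, j ∈ (r.gg i r1.len).u → TT.AS ((r.gg i r1.len).D j) (col ys j) ∧
      TT.AS ((r.gg i r1.len).D j) ((r.gg i t.len).D j) := by
    intro j hj hju
    obtain ⟨h1, h2⟩ := hm0 j hj
    exact ⟨h1 hju, h2.mono_right inter_subset_left⟩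
  refine ⟨r, x, y, ys, t.len, r1.len, m0, hrt.trans htp, hδ1, hrl, hxi,
    fun n => R.mono _ _ _ (hrq (n + 1)) (hdcd n).1,
    fun n => hbig _ (pos_mono (hrq (n + 1)) (hdcd n).2), h5, ?_⟩
  intro k N
  let a : Finset ℕ := (Finset.range k).filter fun j => j ∈ (r.gg i r1.len).u ∧ m0 ≤ j
  have ha : ∀ j, j ∈ a ↔ j < k ∧ j ∈ (r.gg i r1.len).u ∧ m0 ≤ j := by
    intro j
    simp only [a, Finset.mem_filter, Finset.mem_range]
  let Z : Finset (ℕ × ℕ) :=
    ((Finset.range k) ×ˢ (Finset.range k)).filter fun z => z.2 ∈ col ys z.1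
  have hZ : ∀ j < k, ∀ l < k, (l ∈ col ys j ↔ (j, l) ∈ Z) := by
    intro j hj l hl
    simp only [Z, Finset.mem_filter, Finset.mem_product, Finset.mem_range]
    exact ⟨fun h => ⟨⟨hj, hl⟩, h⟩, fun h => h.2⟩
  rcases hgδ.sealing hlim hbδ a k Z (q N).len (hlen N) with
    ⟨ξ, h1, h2, h3, h4⟩ | ⟨B, F, hB, hF, h3, h4⟩
  · -- an index below the sealing stage
    have hex : ∃ n, ξ < (q n).len := htl ξ h2
    obtain ⟨n', hn', hmin⟩ : ∃ n', ξ < (q n').len ∧ ∀ m < n', ¬ ξ < (q m).len :=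
      ⟨Nat.find hex, Nat.find_spec hex, fun m hm => Nat.find_min hex hm⟩
    have hNn : N < n' := by
      by_contra hcon
      exact absurd (lt_of_lt_of_le hn' (hlm n' N (not_lt.1 hcon))) (not_lt.2 h1.le)
    obtain ⟨n, rfl⟩ : ∃ n, n' = n + 1 := ⟨n' - 1, by omega⟩
    have hCξ : C ξ = col (y n) := hC n ξ (not_lt.1 (hmin n (by omega))) hn'
    have h3' : TT.Pat ((r.d t.len).G ξ) k Z := h3
    rw [hGδ, hCξ] at h3'
    refine ⟨n, by omega, fun j hj l hl => ?_, fun j hj hju hm => ?_⟩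
    · rw [h3' j hj l hl, hZ j hj l hl]
    · have h6 : TT.AS ((r.gg i t.len).D j) ((r.d t.len).G ξ j) := h4 j ((ha j).2 ⟨hj, hju, hm⟩)
      rw [hGδ, hCξ] at h6
      exact h6
  · exfalso
    have key : ∀ B : Finset (ℕ × Ω), (∀ z ∈ B, z.2 < t.len) → ∃ m, ∀ z ∈ B, z.2 < (q m).len := by
      intro B hB
      choose! f hf using htl
      exact ⟨B.sup fun z => f z.2, fun z hz => lt_of_lt_of_le (hf z.2 (hB z hz))
        (hlm _ _ (Finset.le_sup (f := fun z => f z.2) hz))⟩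
    obtain ⟨m1, hm1⟩ := key B hB
    obtain ⟨m2, hm2⟩ := key F hF
    have hBm : ∀ z ∈ B, z.2 < (q (max m1 m2)).len := fun z hz =>
      lt_of_lt_of_le (hm1 z hz) (hlm _ _ (le_max_left _ _))
    have hFm : ∀ z ∈ F, z.2 < (q (max m1 m2)).len := fun z hz =>
      lt_of_lt_of_le (hm2 z hz) (hlm _ _ (le_max_right _ _))
    obtain ⟨n, hn, hmn, himp⟩ := htask a k Z B F (max m1 m2) hBm hFm (N + 1)
    have hT : Test i (q (n + 1)) C a k Z B F (y n) := by
      refine himp ⟨r, hrq n, xs, fun n' _ => hxs n', ys, hys', hZ, fun j hj => ?_⟩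
      have hju := (ha j).1 hj
      have h6 := h5 j hju.2.2 hju.2.1
      have h7 : TT.AS ((r.gg i t.len).D j)
          (TT.cell (fun β => (r.gg i β).D) ((r.d t.len).G) B F j) := h3 j hj
      rw [hGδ] at h7
      exact ((h6.2.trans h7).inter h6.1).infinite (hgγ.Dinf j)
    have hlt : (q n).len < (q (n + 1)).len := hql n
    have hCn : C (q n).len = col (y n) := hC n _ le_rfl hlt
    have hζ : (q N).len < (q n).len := lt_of_lt_of_le (hql N) (hlm _ _ hn)
    have h8 : TT.Pat ((r.d t.len).G (q n).len) k Z := by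
      rw [hGδ, hCn]
      exact hT.1
    refine h4 (q n).len hζ (hlen n) h8 fun j hj => ?_
    have h9 : (TT.cell (fun β => (r.gg i β).D) ((r.d t.len).G) B F j ∩
        (r.d t.len).G (q n).len j).Infinite := by
      rw [hGδ, hCn]
      have e : TT.cell (fun β => (r.gg i β).D) C B F j =
          TT.cell (fun β => ((q (n + 1)).gg i β).D) C B F j := by
        refine TT.cell_congr (fun z hz => ?_) j
        have hz' : z.2 < (q (n + 1)).len := lt_of_lt_of_le (hBm z hz) (hlm _ _ (by omega))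
        rw [gg_eq (hrq (n + 1)) i hz']
      rw [e]
      exact hT.2 j hj
    exact h9

end TTF
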