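import Pool.Agent.TTF.Refl
import Pool.Agent.TTF.Diag

/-! TTF / Seal: an infinite subfamily with intersection in the ultrafilter.

PROOF. `reflect` gives `r, x, y, ys, δ, γ, m0`; `diag_sets` with `u = u_γ`, `D = D_γ`, `Dd = D_δ`, `cs = col ys`,
`c n = col (y n)` gives `s, ks, E0`, `Big` at `γ` of `E0`, i.e. `Pos i E0' r` for the set `E0'` of codes of `E0`.
`idx` from `TT.exists_idx ks` (`idx n = m` if `ks m ≤ n < ks (m+1)`). Avoidance (replaces `TT.exists_avoid`): for an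
infinite `K ⊆ ℕ` and a function `f : ℕ × ℕ → ℕ` there are `q ≤ r` and an infinite `K' ⊆ K` with
`Pos i {n | f (unpair n) ∉ K'} q`: split `K` into two disjoint infinite sets `K1`, `K2`; decide (`dec_dense`)
`W = {n | f (unpair n) ∉ K1}`: if `Pos i W q` take `K1`; else `Pos i Wᶜ q` and `Wᶜ ⊆ {n | f (unpair n) ∉ K2}`: take `K2`.
Apply it twice, with `f = idx ∘ Prod.fst` (`K = univ`), then `f = idx ∘ Prod.snd`: `K'`. `E` = the intersection of the
three sets; `x' = x ∘ s`, `y' = y ∘ s`: for `m ∈ K'` and `n ∈ E`, `(j, l) = unpair n`: not `ks m ≤ j < ks (m+1)` and not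
`ks m ≤ l < ks (m+1)`, so `l ∈ col (y (s m)) j`, i.e. `n ∈ y (s m)`. -/

set_option autoImplicit false

open Set Filter

namespace TTF

universe u

variable {Ω : Type u} [LinearOrder Ω]

/-- avoidance. -/
theorem avoid_aux [WellFoundedLT Ω] (hc : ∀ a : Ω, (Iio a).Countable) (hu : ¬ (univ : Set Ω).Countable)
    (i : Bool) (p : Cond Ω) (f : ℕ → ℕ) (K : Set ℕ) (hK : K.Infinite) :
    ∃ q ≤ p, ∃ K' ⊆ K, K'.Infinite ∧ Pos i {n | f n ∉ K'} q := by
  obtain ⟨A, hA⟩ := TT.exists_split (fun _ : Unit => K) (fun _ => hK)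
  obtain ⟨h1, h2⟩ := hA ()
  obtain ⟨q, hq, -, h⟩ := dec_dense hc hu p {n | f n ∉ K ∩ A}
  rcases h i with h | h
  · exact ⟨q, hq, K ∩ A, inter_subset_left, h1, h⟩
  · refine ⟨q, hq, K \ A, sdiff_subset, h2, pos_superset ?_ h⟩
    intro n hn
    have h3 : f n ∈ K ∩ A := by
      by_contra h4
      exact hn h4
    exact fun h4 => h4.2 h3.2

theorem exists_seal [WellFoundedLT Ω] (hc : ∀ a : Ω, (Iio a).Countable) (hu : ¬ (univ : Set Ω).Countable)
    (i : Bool) (R : SetName (Cond Ω) (Set ℕ × Set ℕ)) (p : Cond Ω) (hR : IsFun (UU Ω i) R p) :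
    ∃ q ≤ p, ∃ (x y : ℕ → Set ℕ) (K E : Set ℕ), Function.Injective x ∧ K.Infinite ∧ Pos i E q ∧
      ∀ n ∈ K, R.mem (x n, y n) q ∧ E ⊆ y n := by
  obtain ⟨r, x, y, ys, δ, γ, m0, hrp, hδγ, hγr, hxi, hR', hBig, h1, h2⟩ := reflect hc hu i R p hR
  obtain ⟨s, ks, E0, hs, hks, hE0, hE0'⟩ := diag_sets (r.gg i γ).u (r.gg i γ).D (r.gg i δ).D
    (col ys) (fun n => col (y n)) m0 (fun j hj hju => h1 j hj hju)
    (fun k N => by
      obtain ⟨n, hn, ha, hb⟩ := h2 k N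
      exact ⟨n, hn, ha, hb⟩) (fun n => hBig n)
  obtain ⟨idx, hidx⟩ := TT.exists_idx ks hks
  obtain ⟨q1, hq1, K1, -, hK1, hP1⟩ :=
    avoid_aux hc hu i r (fun n => idx (Nat.unpair n).1) univ infinite_univ
  obtain ⟨q2, hq2, K2, hK21, hK2, hP2⟩ :=
    avoid_aux hc hu i q1 (fun n => idx (Nat.unpair n).2) K1 hK1
  have hpre : pre {n | Nat.unpair n ∈ E0} = E0 := by
    ext ⟨a, b⟩
    change Nat.unpair (Nat.pair a b) ∈ E0 ↔ (a, b) ∈ E0
    rw [Nat.unpair_pair]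
  have hE0P : Pos i {n | Nat.unpair n ∈ E0} r := by
    refine ⟨γ, hγr, ?_⟩
    rw [hpre]
    exact hE0
  refine ⟨q2, (hq2.trans hq1).trans hrp, fun m => x (s m), fun m => y (s m), K2,
    {n | Nat.unpair n ∈ E0} ∩ ({n | idx (Nat.unpair n).1 ∉ K1} ∩ {n | idx (Nat.unpair n).2 ∉ K2}),
    hxi.comp hs.injective, hK2, ?_, ?_⟩
  · exact pos_inter (pos_mono (hq2.trans hq1) hE0P) (pos_inter (pos_mono hq2 hP1) hP2)
  · intro m hm
    refine ⟨R.mono _ _ _ (hq2.trans hq1) (hR' (s m)), ?_⟩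
    intro n hn
    have h5 := hE0' (Nat.unpair n) hn.1 m
      (fun h => hn.2.1 (by rw [hidx m _ h.1 h.2]; exact hK21 hm))
      (fun h => hn.2.2 (by rw [hidx m _ h.1 h.2]; exact hm))
    have h6 : Nat.pair (Nat.unpair n).1 (Nat.unpair n).2 ∈ y (s m) := h5
    rwa [Nat.pair_unpair] at h6

end TTF
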