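import Pool.Agent.TTF.Dcd
import Pool.Agent.TTF.Ext

/-! TTF / Seq: the descending sequence with bookkeeping.

PROOF. Recursion on states `(q, C, X)`: a condition, a function `C : Ω → ℕ → Set ℕ` (relevant below `q.len`), a finite
set `X` of reals already used. Start: `(p, fun _ _ => univ, ∅)`. Tasks: quintuples `(a, k, Z, B, F)`; for every `a0 : Ω`
the set of tasks with `B, F ⊆ ℕ × Iio a0` is countable (`TT.countable_finset_below`) and nonempty, so fix a surjection
`e a0 : ℕ → tasks below a0`. At step `n = Nat.pair m b` (so `m ≤ n`) handle the task `e (q m).len b`: if there are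
`r ≤ q n`, `x' ∉ X`, `y'` with `Dcd i R r x' y'` and `Test i r C a k Z B F y'`, choose such `r, x', y'`; otherwise take any
real `x' ∉ X` and `r, y'` with `Dcd i R r x' y'` (`dcd_dense`). Then `q (n+1)` = an extension of `r` by one stage
(`exists_ext`; `Dcd` and `Test` are preserved by `dcd_mono`, `test_congr`), `C' ξ = C ξ` for `ξ < (q n).len` and
`C' ξ = col y'` otherwise, `X' = insert x' X`. The final `C ξ` is the eventual value (`C ξ = C_n ξ` for all `n` with
`ξ < (q n).len`; for `ξ` above all `(q n).len` arbitrary). Every task below `(q m).len` is below `(q m').len` for all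
`m' ≥ m`, so it is handled at some `n = Nat.pair m' b ≥ m' ≥ N` (`Nat.left_le_pair`).

A convenient way to organise the recursion: the state contains the whole finite history (a list), or use
`exists_seq`-style dependent choice on `ℕ → State` with the task at step `n` depending on the history; e.g. let the
state also carry the function `m ↦ (q m).len` for `m ≤ n`. -/

set_option autoImplicit false

open Set

namespace TTF

universe u

variable {Ω : Type u} [LinearOrder Ω]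

private theorem dep_choice {S : Type*} (I : ℕ → S → Prop) (Rr : ℕ → S → S → Prop) (s0 : S) (h0 : I 0 s0)
    (hs : ∀ n s, I n s → ∃ s', I (n + 1) s' ∧ Rr n s s') :
    ∃ f : ℕ → S, f 0 = s0 ∧ ∀ n, I n (f n) ∧ Rr n (f n) (f (n + 1)) := by
  choose g hg using hs
  let F : (n : ℕ) → {s // I n s} := fun n =>
    Nat.rec (motive := fun n => {s // I n s}) ⟨s0, h0⟩
      (fun n s => ⟨g n s.1 s.2, (hg n s.1 s.2).1⟩) n
  exact ⟨fun n => (F n).1, rfl, fun n => ⟨(F n).2, (hg n (F n).1 (F n).2).2⟩⟩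

private abbrev Tsk (Ω : Type u) : Type u :=
  Finset ℕ × ℕ × Finset (ℕ × ℕ) × Finset (ℕ × Ω) × Finset (ℕ × Ω)

private def Bel (a0 : Ω) (t : Tsk Ω) : Prop :=
  (∀ z ∈ t.2.2.2.1, z.2 < a0) ∧ ∀ z ∈ t.2.2.2.2, z.2 < a0

private theorem exists_enum (hc : ∀ a : Ω, (Iio a).Countable) (a0 : Ω) :
    ∃ e : ℕ → Tsk Ω, (∀ b, Bel a0 (e b)) ∧ ∀ t, Bel a0 t → ∃ b, e b = t := by
  have h1 := TT.countable_finset_below a0 (hc a0)
  have h2 : {t : Tsk Ω | Bel a0 t}.Countable := by
    have h3 : ((univ : Set (Finset ℕ)) ×ˢ ((univ : Set ℕ) ×ˢ ((univ : Set (Finset (ℕ × ℕ))) ×ˢ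
        ({B : Finset (ℕ × Ω) | ∀ x ∈ B, x.2 < a0} ×ˢ
          {B : Finset (ℕ × Ω) | ∀ x ∈ B, x.2 < a0})))).Countable :=
      countable_univ.prod (countable_univ.prod (countable_univ.prod (h1.prod h1)))
    refine h3.mono ?_
    intro t ht
    exact ⟨mem_univ _, mem_univ _, mem_univ _, ht.1, ht.2⟩
  have h4 : {t : Tsk Ω | Bel a0 t}.Nonempty :=
    ⟨(∅, 0, ∅, ∅, ∅), fun z hz => absurd hz (Finset.notMem_empty z),
      fun z hz => absurd hz (Finset.notMem_empty z)⟩
  obtain ⟨e, he⟩ := h2.exists_eq_range h4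
  refine ⟨e, fun b => ?_, fun t ht => ?_⟩
  · have : e b ∈ {t : Tsk Ω | Bel a0 t} := by rw [he]; exact ⟨b, rfl⟩
    exact this
  · have : t ∈ range e := by rw [← he]; exact ht
    exact this

private structure SS (Ω : Type u) [LinearOrder Ω] where
  q : Cond Ω
  C : Ω → ℕ → Set ℕ
  X : Finset (Set ℕ)
  L : ℕ → Ω
  x : Set ℕ
  y : Set ℕ

private def Inv (p : Cond Ω) (n : ℕ) (s : SS Ω) : Prop :=
  s.q ≤ p ∧ (∀ m ≤ n, s.L m ≤ s.q.len) ∧ s.L n = s.q.len

private def TT' (i : Bool) (r : Cond Ω) (C : Ω → ℕ → Set ℕ) (t : Tsk Ω) (y : Set ℕ) : Prop :=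
  Test i r C t.1 t.2.1 t.2.2.1 t.2.2.2.1 t.2.2.2.2 y

private structure Stp (i : Bool) (R : SetName (Cond Ω) (Set ℕ × Set ℕ)) (e : Ω → ℕ → Tsk Ω)
    (n : ℕ) (s s' : SS Ω) : Prop where
  le : s'.q ≤ s.q
  lt : s.q.len < s'.q.len
  nx : s'.x ∉ s.X
  X : ∀ z, z ∈ s'.X ↔ z = s'.x ∨ z ∈ s.X
  dcd : Dcd i R s'.q s'.x s'.y
  C1 : ∀ ξ < s.q.len, s'.C ξ = s.C ξ
  C2 : ∀ ξ, s.q.len ≤ ξ → s'.C ξ = col s'.y
  L : ∀ m ≤ n, s'.L m = s.L m
  tst : (∃ r ≤ s.q, ∃ x' : Set ℕ, x' ∉ s.X ∧ ∃ y', Dcd i R r x' y' ∧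
      TT' i r s.C (e (s.L (Nat.unpair n).1) (Nat.unpair n).2) y') →
    TT' i s'.q s.C (e (s.L (Nat.unpair n).1) (Nat.unpair n).2) s'.y

private theorem exists_step [WellFoundedLT Ω] (hc : ∀ a : Ω, (Iio a).Countable)
    (hu : ¬ (univ : Set Ω).Countable) (i : Bool) (R : SetName (Cond Ω) (Set ℕ × Set ℕ)) (p : Cond Ω)
    (hR : IsFun (UU Ω i) R p) (e : Ω → ℕ → Tsk Ω) (he : ∀ a0 b, Bel a0 (e a0 b)) (n : ℕ) (s : SS Ω)
    (hs : Inv p n s) : ∃ s', Inv p (n + 1) s' ∧ Stp i R e n s s' := by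
  classical
  obtain ⟨h1, h2, h3⟩ := hs
  set t := e (s.L (Nat.unpair n).1) (Nat.unpair n).2 with ht
  have htb : Bel s.q.len t := by
    have h4 := he (s.L (Nat.unpair n).1) (Nat.unpair n).2
    have h5 := h2 _ (Nat.unpair_left_le n)
    exact ⟨fun z hz => (h4.1 z hz).trans_le h5, fun z hz => (h4.2 z hz).trans_le h5⟩
  have key : ∃ r ≤ s.q, ∃ x' : Set ℕ, x' ∉ s.X ∧ ∃ y', Dcd i R r x' y' ∧
      ((∃ r ≤ s.q, ∃ x' : Set ℕ, x' ∉ s.X ∧ ∃ y', Dcd i R r x' y' ∧ TT' i r s.C t y') →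
        TT' i r s.C t y') := by
    by_cases h : ∃ r ≤ s.q, ∃ x' : Set ℕ, x' ∉ s.X ∧ ∃ y', Dcd i R r x' y' ∧ TT' i r s.C t y'
    · obtain ⟨r, hr, x', hx', y', hd, hT⟩ := h
      exact ⟨r, hr, x', hx', y', hd, fun _ => hT⟩
    · obtain ⟨x', hx'⟩ := Infinite.exists_notMem_finset s.X
      obtain ⟨r, hr, y', hd⟩ := dcd_dense hR s.q h1 x'
      exact ⟨r, hr, x', hx', y', hd, fun h' => absurd h' h⟩
  obtain ⟨r, hr, x', hx', y', hd, hT⟩ := key
  obtain ⟨q', hq', hlt, -⟩ := exists_ext hc hu r true (fun _ => ∅) (fun _ _ => ∅)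
  have hlen : s.q.len < q'.len := hr.1.trans_lt hlt
  refine ⟨⟨q', fun ξ => if ξ < s.q.len then s.C ξ else col y', insert x' s.X,
    fun m => if m ≤ n then s.L m else q'.len, x', y'⟩, ⟨?_, ?_, ?_⟩, ?_⟩
  · exact (hq'.trans hr).trans h1
  · intro m _
    by_cases hm : m ≤ n
    · simp only [hm, if_true]
      exact (h2 m hm).trans hlen.le
    · simp only [hm, if_false]
      exact le_rfl
  · simp
  · exact
      { le := hq'.trans hr
        lt := hlen
        nx := hx'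
        X := fun z => Finset.mem_insert
        dcd := dcd_mono hq' hd
        C1 := fun ξ hξ => if_pos hξ
        C2 := fun ξ hξ => if_neg (not_lt.2 hξ)
        L := fun m hm => if_pos hm
        tst := fun h => by
          have h4 := hT h
          exact test_congr (fun z hz => (gg_eq hq' i ((htb.1 z hz).trans_le hr.1)).symm)
            (fun z _ => rfl) h4 }

theorem exists_seq [WellFoundedLT Ω] (hc : ∀ a : Ω, (Iio a).Countable) (hu : ¬ (univ : Set Ω).Countable)
    (i : Bool) (R : SetName (Cond Ω) (Set ℕ × Set ℕ)) (p : Cond Ω) (hR : IsFun (UU Ω i) R p) :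
    ∃ (q : ℕ → Cond Ω) (x y : ℕ → Set ℕ) (C : Ω → ℕ → Set ℕ),
      q 0 = p ∧ (∀ n, q (n + 1) ≤ q n) ∧ (∀ n, (q n).len < (q (n + 1)).len) ∧
      Function.Injective x ∧ (∀ n, Dcd i R (q (n + 1)) (x n) (y n)) ∧
      (∀ n ξ, (q n).len ≤ ξ → ξ < (q (n + 1)).len → C ξ = col (y n)) ∧
      ∀ (a : Finset ℕ) (k : ℕ) (Z : Finset (ℕ × ℕ)) (B F : Finset (ℕ × Ω)) (m : ℕ),
        (∀ z ∈ B, z.2 < (q m).len) → (∀ z ∈ F, z.2 < (q m).len) →
        ∀ N, ∃ n ≥ N, m ≤ n ∧
          ((∃ r ≤ q n, ∃ x' : Set ℕ, (∀ n' < n, x' ≠ x n') ∧ ∃ y', Dcd i R r x' y' ∧ Test i r C a k Z B F y') →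
            Test i (q (n + 1)) C a k Z B F (y n)) := by
  classical
  choose e he1 he2 using fun a0 : Ω => exists_enum hc a0
  obtain ⟨f, hf0, hf⟩ := dep_choice (Inv p) (Stp i R e)
    (⟨p, fun _ _ => univ, ∅, fun _ => p.len, ∅, ∅⟩ : SS Ω)
    ⟨le_rfl, fun _ _ => le_rfl, rfl⟩
    (fun n s hs => exists_step hc hu i R p hR e he1 n s hs)
  have hI := fun n => (hf n).1
  have hS := fun n => (hf n).2
  have hlen : ∀ n, (f n).q.len < (f (n + 1)).q.len := fun n => (hS n).lt
  have hmono : StrictMono fun n => (f n).q.len := strictMono_nat_of_lt_succ hlen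
  -- the used reals
  have hX1 : ∀ n, ∀ z ∈ (f n).X, ∃ n' < n, z = (f (n' + 1)).x := by
    intro n
    induction n with
    | zero =>
      intro z hz
      rw [hf0] at hz
      exact absurd hz (Finset.notMem_empty z)
    | succ n ih =>
      intro z hz
      rcases ((hS n).X z).1 hz with h | h
      · exact ⟨n, Nat.lt_succ_self n, h⟩
      · obtain ⟨n', hn', h'⟩ := ih z h
        exact ⟨n', hn'.trans (Nat.lt_succ_self n), h'⟩
  have hX2 : ∀ n n', n' < n → (f (n' + 1)).x ∈ (f n).X := by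
    intro n
    induction n with
    | zero => intro n' h; exact absurd h (Nat.not_lt_zero _)
    | succ n ih =>
      intro n' h
      rw [(hS n).X]
      rcases Nat.lt_succ_iff_lt_or_eq.1 h with h | h
      · exact Or.inr (ih n' h)
      · left; rw [h]
  have hinj : Function.Injective fun n => (f (n + 1)).x := by
    have h1 : ∀ m n, m < n → (f (m + 1)).x ≠ (f (n + 1)).x := by
      intro m n hmn h
      exact (hS n).nx (h ▸ hX2 n m hmn)
    intro m n h
    by_contra hne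
    rcases lt_or_gt_of_ne hne with h2 | h2
    · exact h1 m n h2 h
    · exact h1 n m h2 h.symm
  -- the function `C`
  have hCs : ∀ ξ n m, n ≤ m → ξ < (f n).q.len → (f m).C ξ = (f n).C ξ := by
    intro ξ n m hnm hξ
    induction m, hnm using Nat.le_induction with
    | base => rfl
    | succ m hnm ih =>
      rw [(hS m).C1 ξ (hξ.trans_le (hmono.monotone hnm)), ih]
  let C : Ω → ℕ → Set ℕ := fun ξ =>
    if h : ∃ n, ξ < (f n).q.len then (f (Nat.find h)).C ξ else fun _ => univ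
  have hC : ∀ ξ n, ξ < (f n).q.len → C ξ = (f n).C ξ := by
    intro ξ n hξ
    have h : ∃ n, ξ < (f n).q.len := ⟨n, hξ⟩
    have h1 : C ξ = (f (Nat.find h)).C ξ := dif_pos h
    rw [h1]
    exact (hCs ξ (Nat.find h) n (Nat.find_min' h hξ) (Nat.find_spec h)).symm
  -- the lengths
  have hL : ∀ m n, m ≤ n → (f n).L m = (f m).q.len := by
    intro m n hmn
    induction n, hmn using Nat.le_induction with
    | base => exact (hI m).2.2
    | succ n hmn ih => rw [(hS n).L m hmn, ih]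
  refine ⟨fun n => (f n).q, fun n => (f (n + 1)).x, fun n => (f (n + 1)).y, C, ?_, fun n => (hS n).le,
    hlen, hinj, fun n => (hS n).dcd, ?_, ?_⟩
  · simp only [hf0]
  · intro n ξ h1 h2
    rw [hC ξ (n + 1) h2]
    exact (hS n).C2 ξ h1
  · intro a k Z B F m hB hF N
    set m' := max m N with hm'
    have hmm : (f m).q.len ≤ (f m').q.len := hmono.monotone (le_max_left _ _)
    obtain ⟨b, hb⟩ := he2 (f m').q.len (a, k, Z, B, F)
      ⟨fun z hz => (hB z hz).trans_le hmm, fun z hz => (hF z hz).trans_le hmm⟩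
    have hn : m' ≤ Nat.pair m' b := Nat.left_le_pair m' b
    refine ⟨Nat.pair m' b, (le_max_right _ _).trans hn, (le_max_left _ _).trans hn, ?_⟩
    set n := Nat.pair m' b with hnd
    have hu1 : (Nat.unpair n).1 = m' := by rw [hnd, Nat.unpair_pair]
    have hu2 : (Nat.unpair n).2 = b := by rw [hnd, Nat.unpair_pair]
    have hm : m ≤ n := (le_max_left _ _).trans hn
    have htk : e ((f n).L (Nat.unpair n).1) (Nat.unpair n).2 = (a, k, Z, B, F) := by
      rw [hu1, hu2, hL m' n hn, hb]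
    have hFC : ∀ z ∈ F, C z.2 = (f n).C z.2 := fun z hz =>
      hC z.2 n ((hF z hz).trans_le (hmono.monotone hm))
    have hst := (hS n).tst
    rw [htk] at hst
    rintro ⟨r, hr, x', hx', y', hd, hT⟩
    have h1 := hst ⟨r, hr, x', fun hx => by
      obtain ⟨n', hn', h2⟩ := hX1 n x' hx
      exact hx' n' hn' h2, y', hd, test_congr (fun _ _ => rfl) hFC hT⟩
    exact test_congr (fun _ _ => rfl) (fun z hz => (hFC z hz).symm) h1

end TTF
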