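import Mathlib

/-!
# The statements Q1 and Q2 (definitions)
-/

set_option autoImplicit false

open Set

namespace TTF.Std

/-- Tukey reduction `D ≤_T E`: some map sends unbounded sets to unbounded sets. -/
def TukeyLE (D E : Type*) [Preorder D] [Preorder E] : Prop :=
  ∃ f : D → E, ∀ s : Set D, ¬ BddAbove s → ¬ BddAbove (f '' s)

/-- The directed set `(U, ⊇)` of an ultrafilter. -/
abbrev Dir {X : Type} (U : Ultrafilter X) : Type := {A : Set X // A ∈ U}ᵒᵈ

/-- `U` is Tukey-top: `([𝔠]^{<ω}, ⊆) ≤_T (U, ⊇)`; `Set ℕ` has cardinality `𝔠`, so `Finset (Set ℕ)` is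
`[𝔠]^{<ω}`. -/
def TukeyTop {X : Type} (U : Ultrafilter X) : Prop := TukeyLE (Finset (Set ℕ)) (Dir U)

/-- All ultrafilters in the problem are nonprincipal. -/
def Nonprincipal {X : Type} (U : Ultrafilter X) : Prop := ∀ x, {x} ∉ U

/-- The Fubini sum `U-∑ₙ Vₙ` on `ω × ω`: the sets `A` with `{n | {m | (n, m) ∈ A} ∈ V n} ∈ U`. -/
def fubiniSum (U : Ultrafilter ℕ) (V : ℕ → Ultrafilter ℕ) : Ultrafilter (ℕ × ℕ) :=
  U.bind (fun n => (V n).map (Prod.mk n))

/-- Q1: Fubini sums of non-Tukey-top ultrafilters are non-Tukey-top. -/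
def Q1 : Prop := ∀ (U : Ultrafilter ℕ) (V : ℕ → Ultrafilter ℕ), Nonprincipal U →
  (∀ n, Nonprincipal (V n)) → ¬ TukeyTop U → (∀ n, ¬ TukeyTop (V n)) →
    ¬ TukeyTop (fubiniSum U V)

/-- Q2: Fubini products of non-Tukey-top ultrafilters are non-Tukey-top. -/
def Q2 : Prop := ∀ U V : Ultrafilter ℕ, Nonprincipal U → Nonprincipal V →
  ¬ TukeyTop U → ¬ TukeyTop V → ¬ TukeyTop (fubiniSum U fun _ => V)

end TTF.Std
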