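import Pool.Agent.TTF.Kill
import Pool.Agent.TTF.PhiD

/-! TTF / TopF: the name of the Tukey family in the Fubini product.

`RR` is the name of the function `x ↦ AA true (φ x) × AA false (φ x)`.
PROOF of `rr_fun`: total: `phi_dense` gives `r` and `α`, then `(x, AA r true α ×ˢ AA r false α)` is in `RR` at `r`
(`phi_mono`, `aa_eq`). Single valued: below a common condition both are the set given by the unique `α`. Values in the
product: at `r` with `Phi r x α`, `y = A ×ˢ A'`, take `N = AA r true α` (`aa_mem`), the sections over `n ∈ N` are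
`AA r false α` (`aa_mem`). -/

set_option autoImplicit false

open Set

namespace TTF

universe u

variable {Ω : Type u} [LinearOrder Ω]

/-- name of the family of sets in the Fubini product. -/
def RR (Ω : Type u) [LinearOrder Ω] : SetName (Cond Ω) (Set ℕ × Set (ℕ × ℕ)) where
  mem z := fun p => ∀ q ≤ p, ∃ r ≤ q, ∃ α, Phi r z.1 α ∧ z.2 = AA r true α ×ˢ AA r false α
  mono := fun _ _ _ hqp h q' hq' => h q' (hq'.trans hqp)
  dense := fun _ _ h q hq => by
    obtain ⟨r, hr, h1⟩ := h q hq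
    obtain ⟨s, hs, h2⟩ := h1 r le_rfl
    exact ⟨s, hs.trans hr, h2⟩

theorem rr_mem {p : Cond Ω} {x : Set ℕ} {α : Ω} (h : Phi p x α) :
    (RR Ω).mem (x, AA p true α ×ˢ AA p false α) p := by
  intro q hq
  refine ⟨q, le_rfl, α, phi_mono hq h, ?_⟩
  change AA p true α ×ˢ AA p false α = AA q true α ×ˢ AA q false α
  rw [aa_eq hq true h.1, aa_eq hq false h.1]

theorem rr_fun [WellFoundedLT Ω] (hc : ∀ a : Ω, (Iio a).Countable) (hu : ¬ (univ : Set Ω).Countable)
    (p : Cond Ω) : IsFun (fprod (UU Ω true) (UU Ω false)) (RR Ω) p := by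
  refine ⟨?_, ?_, ?_⟩
  · intro x q _
    obtain ⟨r, hr, α, hα⟩ := phi_dense hc hu q x
    exact ⟨r, hr, _, rr_mem hα⟩
  · rintro x y ⟨y', hne⟩ q _ ⟨h1, h2⟩
    obtain ⟨r, hr, α, hα, e1⟩ := h1 q le_rfl
    obtain ⟨s, hs, β, hβ, e2⟩ := h2 r hr
    have e3 : α = β := phi_unique (phi_mono hs hα) hβ
    subst e3
    apply hne
    change y = AA r true α ×ˢ AA r false α at e1
    change y' = AA s true α ×ˢ AA s false α at e2
    rw [e1, e2, aa_eq hs true hα.1, aa_eq hs false hα.1]
  · intro x y q _ h1 q' hq'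
    obtain ⟨r, hr, α, hα, e1⟩ := h1 q' hq'
    change y = AA r true α ×ˢ AA r false α at e1
    refine ⟨r, hr, AA r true α, aa_mem hc hu r true α hα.1, ?_⟩
    rintro ⟨n, hn⟩
    have e2 : {m | (n, m) ∈ y} = AA r false α := by
      ext m
      rw [e1]
      change (n ∈ AA r true α ∧ m ∈ AA r false α) ↔ m ∈ AA r false α
      exact ⟨fun h => h.2, fun h => ⟨hn, h⟩⟩
    change (UU Ω false).mem {m | (n, m) ∈ y} r
    rw [e2]
    exact aa_mem hc hu r false α hα.1

end TTF
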